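import Pool.Agent.MP_ee8c61_ag.M3FG.SpecA

/-! Row GOR: Gordan's lemma. -/

namespace Pool.Agent.MP_ee8c61_ag.M3FG

open M3

namespace RGOR

/-- The combination of the generators. -/
def cmb {N : Type} [AddCommMonoid N] (T : Finset N) (κ : Type) : ((T ⊕ κ) → ℕ) →+ N where
  toFun x := ∑ t : T, x (Sum.inl t) • (t : N)
  map_zero' := by simp
  map_add' x y := by simp only [Pi.add_apply, add_smul, Finset.sum_add_distrib]

/-- The slack variables. -/
def slack {N : Type} (T : Finset N) (κ : Type) : ((T ⊕ κ) → ℕ) →+ (κ → ℤ) where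
  toFun x i := (x (Sum.inr i) : ℤ)
  map_zero' := by
    funext i
    simp
  map_add' x y := by
    funext i
    simp

theorem ex_cmb {N : Type} [AddCommMonoid N] (T : Finset N) (x : N)
    (hx : x ∈ AddSubmonoid.closure (T : Set N)) : ∃ c : T → ℕ, ∑ t : T, c t • (t : N) = x := by
  classical
  induction hx using AddSubmonoid.closure_induction with
  | mem y hy =>
    refine ⟨fun t => if t = ⟨y, hy⟩ then 1 else 0, ?_⟩
    simp
  | zero => exact ⟨0, by simp⟩
  | add y z _ _ hy hz =>
    obtain ⟨a, rfl⟩ := hy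
    obtain ⟨b, rfl⟩ := hz
    exact ⟨a + b, by simp only [Pi.add_apply, add_smul, Finset.sum_add_distrib]⟩

end RGOR

open RGOR in
theorem rowGOR : StmtGOR := by
  intro N κ _ hN _ l
  obtain ⟨T, hT⟩ := hN.fg_top
  have h1 := AddSubmonoid.fg_eqLocusM ((AddMonoidHom.pi l).comp (cmb T κ)) (slack T κ)
  have h2 : (AddMonoidHom.eqLocusM ((AddMonoidHom.pi l).comp (cmb T κ)) (slack T κ)).map
      (cmb T κ) = sol l := by
    ext x
    constructor
    · rintro ⟨y, hy, rfl⟩ i
      have e : l i (cmb T κ y) = (y (Sum.inr i) : ℤ) := congrFun hy i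
      rw [e]
      exact Int.natCast_nonneg _
    · intro hx
      obtain ⟨c, hc⟩ := ex_cmb T x (by rw [hT]; exact AddSubmonoid.mem_top x)
      have e : cmb T κ (Sum.elim c fun i => (l i x).toNat) = x := hc
      refine ⟨Sum.elim c fun i => (l i x).toNat, funext fun i => ?_, e⟩
      change l i (cmb T κ _) = (((l i x).toNat : ℕ) : ℤ)
      rw [e, Int.toNat_of_nonneg (hx i)]
  rw [← h2]
  exact h1.map _

end Pool.Agent.MP_ee8c61_ag.M3FG
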