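import Pool.Agent.MP_ee8c61_ag.M3.Mod

/-!
Homogeneous elements of the algebra generated by a set of homogeneous elements of a field.
-/

namespace Pool.Agent.MP_ee8c61_ag.M3FG

open M3 Finset

noncomputable section

variable {L L' K : Type} [AddCommGroup L] [AddCommGroup L'] [Field K] [Algebra ℂ K]

/-- `u` is a polynomial in the generators `G`, homogeneous of degree `d`. -/
inductive Sp (G : Set (L × K)) : L → K → Prop
  | const (z : ℂ) : Sp G 0 (algebraMap ℂ K z)
  | gen {d : L} {g : K} : (d, g) ∈ G → Sp G d g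
  | zero (d : L) : Sp G d 0
  | add {d : L} {u v : K} : Sp G d u → Sp G d v → Sp G d (u + v)
  | mul {d e : L} {u v : K} : Sp G d u → Sp G e v → Sp G (d + e) (u * v)

/-- The same modulo the elements of value larger than `-δ c`. -/
def SpM (v : DV K) (δ : L →+ ℤ) (G : Set (L × K)) (c : L) (s : K) : Prop :=
  ∃ u, Sp G c u ∧ s - u ∈ v.F (1 - δ c)

/-- The constants are units of the valuation. -/
def Triv (v : DV K) : Prop := ∀ z : ℂ, algebraMap ℂ K z ∈ v.F 0

namespace Sp

variable {G G' : Set (L × K)} {d e : L} {u w : K}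

theorem cast (h : Sp G d u) (hd : d = e) (hu : u = w) : Sp G e w := hd ▸ hu ▸ h

theorem one : Sp G 0 (1 : K) := (const 1).cast rfl (map_one _)

theorem smul (z : ℂ) (h : Sp G d u) : Sp G d (algebraMap ℂ K z * u) :=
  ((const z).mul h).cast (zero_add _) rfl

theorem neg (h : Sp G d u) : Sp G d (-u) := (h.smul (-1)).cast rfl (by simp)

theorem sub (h : Sp G d u) (h' : Sp G d w) : Sp G d (u - w) :=
  (h.add h'.neg).cast rfl (sub_eq_add_neg _ _).symm

theorem pow (h : Sp G d u) (n : ℕ) : Sp G (n • d) (u ^ n) := by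
  induction n with
  | zero => exact one.cast (zero_nsmul _).symm (pow_zero _).symm
  | succ n ih => exact (ih.mul h).cast (succ_nsmul _ _).symm (pow_succ _ _).symm

theorem sum {ι : Type} (s : Finset ι) {g : ι → K} (h : ∀ i ∈ s, Sp G d (g i)) :
    Sp G d (∑ i ∈ s, g i) :=
  Finset.sum_induction g (Sp G d) (fun _ _ => add) (zero d) h

theorem prod {ι : Type} (s : Finset ι) {c : ι → L} {g : ι → K} (h : ∀ i ∈ s, Sp G (c i) (g i)) :
    Sp G (∑ i ∈ s, c i) (∏ i ∈ s, g i) := by
  classical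
  induction s using Finset.induction_on with
  | empty => exact one.cast (by simp) (by simp)
  | insert a s ha ih =>
    rw [sum_insert ha, prod_insert ha]
    exact (h a (mem_insert_self _ _)).mul (ih fun i hi => h i (mem_insert_of_mem hi))

/-- Substitution of generators. -/
theorem bind (h : Sp G d u) (hG : ∀ p ∈ G, Sp G' p.1 p.2) : Sp G' d u := by
  induction h with
  | const z => exact const z
  | gen h => exact hG _ h
  | zero d => exact zero d
  | add _ _ h1 h2 => exact h1.add h2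
  | mul _ _ h1 h2 => exact h1.mul h2

theorem mono (h : Sp G d u) (hG : G ⊆ G') : Sp G' d u := h.bind fun _ hp => gen (hG hp)

/-- Change of grading. -/
theorem map {G' : Set (L' × K)} (φ : L →+ L') (h : Sp G d u) (hG : ∀ p ∈ G, Sp G' (φ p.1) p.2) :
    Sp G' (φ d) u := by
  induction h with
  | const z => exact (const z).cast (map_zero φ).symm rfl
  | gen h => exact hG _ h
  | zero d => exact zero _
  | add _ _ h1 h2 => exact h1.add h2
  | mul _ _ h1 h2 => exact (h1.mul h2).cast (map_add φ _ _).symm rfl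

/-- A multiplicative family of additive subgroups that contains the generators. -/
theorem mem {P : L → K → Prop} (h : Sp G d u) (h0 : ∀ z, P 0 (algebraMap ℂ K z))
    (hG : ∀ p ∈ G, P p.1 p.2) (hz : ∀ d, P d 0) (ha : ∀ d u v, P d u → P d v → P d (u + v))
    (hm : ∀ d e u v, P d u → P e v → P (d + e) (u * v)) : P d u := by
  induction h with
  | const z => exact h0 z
  | gen h => exact hG _ h
  | zero d => exact hz d
  | add _ _ h1 h2 => exact ha _ _ _ h1 h2
  | mul _ _ h1 h2 => exact hm _ _ _ _ h1 h2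

/-- Values of homogeneous polynomials. -/
theorem mem_F {v : DV K} (hv : Triv v) (δ : L →+ ℤ) (h : Sp G d u)
    (hG : ∀ p ∈ G, p.2 ∈ v.F (-δ p.1)) : u ∈ v.F (-δ d) :=
  h.mem (P := fun d u => u ∈ v.F (-δ d)) (fun z => by simpa using hv z) hG (fun _ => zero_mem _)
    (fun _ _ _ => add_mem) fun d e u w h1 h2 => by
      have := v.F_mul h1 h2
      rwa [← neg_add, ← map_add] at this

/-- A homogeneous polynomial in an indexed family is a combination of monomials. -/
theorem span {ι : Type} [Fintype ι] (c : ι → L) (g : ι → K)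
    (h : Sp (Set.range fun i => (c i, g i)) d u) :
    u ∈ Submodule.span ℂ {x | ∃ α : ι → ℕ, ∑ i, α i • c i = d ∧ x = ∏ i, g i ^ α i} := by
  classical
  refine h.mem (P := fun d u =>
    u ∈ Submodule.span ℂ {x | ∃ α : ι → ℕ, ∑ i, α i • c i = d ∧ x = ∏ i, g i ^ α i})
    (fun z => ?_) ?_ (fun _ => zero_mem _) (fun _ _ _ => add_mem) fun d e u w h1 h2 => ?_
  · rw [Algebra.algebraMap_eq_smul_one]
    exact Submodule.smul_mem _ _ (Submodule.subset_span ⟨0, by simp, by simp⟩)
  · rintro _ ⟨i, rfl⟩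
    refine Submodule.subset_span ⟨Pi.single i 1, ?_, ?_⟩
    · rw [Finset.sum_eq_single i (fun j _ hj => by simp [hj]) (by simp)]; simp
    · rw [Finset.prod_eq_single i (fun j _ hj => by simp [hj]) (by simp)]; simp
  · have := Submodule.mul_mem_mul h1 h2
    rw [Submodule.span_mul_span] at this
    refine Submodule.span_mono ?_ this
    rintro _ ⟨_, ⟨α, h1, rfl⟩, _, ⟨β, h2, rfl⟩, rfl⟩
    refine ⟨α + β, ?_, ?_⟩
    · simp [add_smul, sum_add_distrib, h1, h2]
    · simp [pow_add, prod_mul_distrib]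

/-- Monomials. -/
theorem monom {ι : Type} [Fintype ι] {c : ι → L} {g : ι → K} (h : ∀ i, Sp G (c i) (g i))
    (α : ι → ℕ) : Sp G (∑ i, α i • c i) (∏ i, g i ^ α i) :=
  prod _ fun i _ => (h i).pow _

/-- If no monomial of degree `d` lies outside an additive subgroup stable under constants, then
no homogeneous polynomial does. -/
theorem exists_monom {ι : Type} [Fintype ι] (c : ι → L) (g : ι → K)
    (h : Sp (Set.range fun i => (c i, g i)) d u) (P : Submodule ℂ K) (hu : u ∉ P) :
    ∃ α : ι → ℕ, ∑ i, α i • c i = d ∧ ∏ i, g i ^ α i ∉ P := by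
  by_contra hn
  push Not at hn
  exact hu (Submodule.span_le.2 (by rintro _ ⟨α, h1, rfl⟩; exact hn α h1) (h.span c g))

end Sp

/-- The elements of value at least `m` as a vector space. -/
def FS (v : DV K) (hv : Triv v) (m : ℤ) : Submodule ℂ K where
  carrier := v.F m
  zero_mem' := zero_mem _
  add_mem' := add_mem
  smul_mem' := fun z g hg => by
    have := v.F_mul (hv z) hg
    rwa [zero_add, ← Algebra.smul_def] at this

omit [Algebra ℂ K] in
theorem v_prod_pow (v : DV K) {ι : Type} (s : Finset ι) (g : ι → K) (α : ι → ℕ)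
    (h : ∏ i ∈ s, g i ^ α i ≠ 0) :
    v.v (∏ i ∈ s, g i ^ α i) = ∑ i ∈ s, (α i : ℤ) * v.v (g i) := by
  classical
  have hp : ∀ (x : K) (n : ℕ), x ^ n ≠ 0 → v.v (x ^ n) = n * v.v x := fun x n => by
    induction n with
    | zero => simp [v.one]
    | succ n ih =>
      intro hx
      rw [pow_succ] at hx ⊢
      rw [v.mul _ _ (left_ne_zero_of_mul hx) (right_ne_zero_of_mul hx),
        ih (left_ne_zero_of_mul hx)]
      push_cast; ring
  induction s using Finset.induction_on with
  | empty => simp [v.one]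
  | insert a s ha ih =>
    rw [prod_insert ha] at h ⊢
    rw [sum_insert ha, v.mul _ _ (left_ne_zero_of_mul h) (right_ne_zero_of_mul h),
      hp _ _ (left_ne_zero_of_mul h), ih (right_ne_zero_of_mul h)]

/-- The value of a nonzero homogeneous polynomial is at least the value of one of the monomials
of the same degree. -/
theorem Sp.lp {ι : Type} [Fintype ι] (c : ι → L) (g : ι → K) {d : L} {u : K}
    (h : Sp (Set.range fun i => (c i, g i)) d u) (hu : u ≠ 0) (v : DV K) (hv : Triv v) :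
    ∃ α : ι → ℕ, ∑ i, α i • c i = d ∧ ∏ i, g i ^ α i ≠ 0 ∧
      ∑ i, (α i : ℤ) * v.v (g i) ≤ v.v u := by
  obtain ⟨α, h1, h2⟩ := h.exists_monom c g (FS v hv (v.v u + 1)) fun h => by
    rcases h with h | h
    · exact hu h
    · omega
  have h3 : ¬(∏ i, g i ^ α i = 0 ∨ v.v u + 1 ≤ v.v (∏ i, g i ^ α i)) := h2
  push Not at h3
  refine ⟨α, h1, h3.1, ?_⟩
  rw [← v_prod_pow v _ g α h3.1]
  omega

namespace SpM

variable {v : DV K} {δ : L →+ ℤ} {G G' : Set (L × K)} {d e : L} {u w : K}

theorem of (h : Sp G d u) : SpM v δ G d u := ⟨u, h, by simp⟩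

theorem cast (h : SpM v δ G d u) (hd : d = e) (hu : u = w) : SpM v δ G e w := hd ▸ hu ▸ h

theorem small (h : u ∈ v.F (1 - δ d)) : SpM v δ G d u := ⟨0, Sp.zero d, by simpa using h⟩

theorem congr (h : SpM v δ G d u) (hw : w - u ∈ v.F (1 - δ d)) : SpM v δ G d w := by
  obtain ⟨x, h1, h2⟩ := h
  exact ⟨x, h1, by simpa using add_mem hw h2⟩

theorem add (h : SpM v δ G d u) (h' : SpM v δ G d w) : SpM v δ G d (u + w) := by
  obtain ⟨x, h1, h2⟩ := h
  obtain ⟨y, h3, h4⟩ := h'
  exact ⟨x + y, h1.add h3, by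
    have := add_mem h2 h4
    rwa [show u - x + (w - y) = u + w - (x + y) by ring] at this⟩

theorem mem_F (hv : Triv v) (hG : ∀ p ∈ G, p.2 ∈ v.F (-δ p.1)) (h : SpM v δ G d u) :
    u ∈ v.F (-δ d) := by
  obtain ⟨x, h1, h2⟩ := h
  simpa using add_mem (v.F_anti (by omega) h2) (h1.mem_F hv δ hG)

theorem mul (hv : Triv v) (hG : ∀ p ∈ G, p.2 ∈ v.F (-δ p.1)) (h : SpM v δ G d u)
    (h' : SpM v δ G e w) : SpM v δ G (d + e) (u * w) := by
  have hu := h.mem_F hv hG
  obtain ⟨x, h1, h2⟩ := h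
  obtain ⟨y, h3, h4⟩ := h'
  refine ⟨x * y, h1.mul h3, ?_⟩
  have a1 := v.F_mul hu h4
  have a2 := v.F_mul h2 (h3.mem_F hv δ hG)
  rw [show u * w - x * y = u * (w - y) + (u - x) * y by ring, map_add]
  exact add_mem (v.F_anti (by omega) a1) (v.F_anti (by omega) a2)

theorem mono (h : SpM v δ G d u) (hG : G ⊆ G') : SpM v δ G' d u :=
  h.imp fun _ h => ⟨h.1.mono hG, h.2⟩

/-- Substitution of generators and change of grading. -/
theorem map {G' : Set (L' × K)} {δ' : L' →+ ℤ} (hv : Triv v) (φ : L →+ L')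
    (hδ : ∀ d, δ' (φ d) = δ d) (hG' : ∀ p ∈ G', p.2 ∈ v.F (-δ' p.1))
    (hG : ∀ p ∈ G, SpM v δ' G' (φ p.1) p.2) (h : SpM v δ G d u) : SpM v δ' G' (φ d) u := by
  obtain ⟨x, h1, h2⟩ := h
  refine congr ?_ (hδ d ▸ h2)
  exact h1.mem (P := fun d u => SpM v δ' G' (φ d) u)
    (fun z => of ((Sp.const z).cast (map_zero φ).symm rfl)) hG (fun _ => of (Sp.zero _))
    (fun _ _ _ => add) fun d e u w h1 h2 => (h1.mul hv hG' h2).cast (map_add φ _ _).symm rfl

theorem pow (hv : Triv v) (hG : ∀ p ∈ G, p.2 ∈ v.F (-δ p.1)) (h : SpM v δ G d u) (n : ℕ) :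
    SpM v δ G (n • d) (u ^ n) := by
  induction n with
  | zero => exact (of Sp.one).cast (zero_nsmul _).symm (pow_zero _).symm
  | succ n ih => exact (ih.mul hv hG h).cast (succ_nsmul _ _).symm (pow_succ _ _).symm

end SpM

end

end Pool.Agent.MP_ee8c61_ag.M3FG
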