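import Pool.Agent.MP_ee8c61_ag.M3FG.SpecB

/-!
Lifting near a ray with witnesses.
-/

namespace Pool.Agent.MP_ee8c61_ag.M3FG

open M3 M3E

namespace RDIO

theorem near {Q p q : ℕ} {a b : ℤ} (hQ : 0 < Q) (hq : 0 < q)
    (h : (Q : ℤ) * |(q : ℤ) * a - (p : ℤ) * b| ≤ q) :
    |(a : ℚ) - (p : ℚ) / q * b| ≤ (Q : ℚ)⁻¹ := by
  have h1 : (Q : ℚ) * |(q : ℚ) * a - (p : ℚ) * b| ≤ q := by exact_mod_cast h
  have q0 : (0 : ℚ) < q := by exact_mod_cast hq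
  have Q0 : (0 : ℚ) < Q := by exact_mod_cast hQ
  rw [show (a : ℚ) - (p : ℚ) / q * b = ((q : ℚ) * a - (p : ℚ) * b) / q by field_simp, abs_div,
    abs_of_pos q0, div_le_iff₀ q0, le_inv_mul_iff₀ Q0]
  exact h1

theorem exQ {J : Type} [Fintype J] (F : J → ℤ) {ε η : ℚ} (hε : 0 < ε) (hη : 0 < η) :
    ∃ Q : ℕ, 2 ≤ Q ∧ (Q : ℚ)⁻¹ ≤ η ∧ ∀ j, (|(F j : ℚ)| + 1) * (Q : ℚ)⁻¹ ≤ ε := by
  have s0 : ∀ j, 0 ≤ (|(F j : ℚ)| + 1) / ε := fun j => by positivity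
  have s1 : 0 ≤ ∑ j, (|(F j : ℚ)| + 1) / ε := Finset.sum_nonneg fun j _ => s0 j
  obtain ⟨Q, hQ⟩ := exists_nat_ge (2 + η⁻¹ + ∑ j, (|(F j : ℚ)| + 1) / ε)
  have i0 : 0 < η⁻¹ := inv_pos.2 hη
  have Q2 : (2 : ℚ) ≤ Q := by linarith
  have Q0 : (0 : ℚ) < Q := by linarith
  refine ⟨Q, by exact_mod_cast Q2, (inv_le_comm₀ Q0 hη).2 (by linarith), fun j => ?_⟩
  have := Finset.single_le_sum (fun j _ => s0 j) (Finset.mem_univ j)
  have h2 : (|(F j : ℚ)| + 1) / ε ≤ Q := by linarith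
  rw [div_le_iff₀ hε] at h2
  rw [mul_inv_le_iff₀ Q0, mul_comm]
  exact h2

end RDIO

theorem rowDIO : OfDIO := by
  intro E hO f M hM o μ d w hμ hd hw
  have B := E.bas 3 f M hM
  have AQ := E.aq 3 f M hM
  have μ0 : (0 : ℚ) < μ := by exact_mod_cast hμ
  have d0 : (0 : ℚ) < d := by exact_mod_cast hd
  have hA : M.AmpQ ((μ : ℚ)⁻¹ • M.q w) := AQ.smul _ _ (inv_pos.2 μ0) (AQ.of_amp w hw)
  obtain ⟨ε, ε0, hε⟩ := hO 3 f M hM _ hA
  obtain ⟨η, η0, η1, η2⟩ : ∃ η : ℚ, 0 < η ∧ η ≤ ε ∧ η ≤ (2 * d : ℚ)⁻¹ :=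
    ⟨min ε (2 * d : ℚ)⁻¹, lt_min ε0 (by positivity), min_le_left _ _, min_le_right _ _⟩
  obtain ⟨Q, Q2, Q1, QF⟩ := RDIO.exQ (FF M o μ w) ε0 η0
  refine ⟨Q, Q2, fun S z z' p q hp hq hz hK hC hn hS hW s hs => ?_⟩
  have nr := fun i => RDIO.near (by omega) hq (hz i)
  obtain ⟨⟨-, bo, hb⟩, hθ⟩ := hK
  obtain ⟨n, en⟩ := Int.eq_ofNat_of_zero_le hn.le
  have n0 : 0 < n := by omega
  have n1 : (0 : ℚ) < n := by exact_mod_cast n0
  have q0 : (0 : ℚ) < q := by exact_mod_cast hq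
  have p0 : (0 : ℚ) < p := by exact_mod_cast hp
  have m0 : (0 : ℚ) < (μ * n : ℕ) := by positivity
  have dcq : ∀ (y : Dg M o) j, (dc (FF M o μ w) y j : ℚ) =
      y none * FF M o μ w j + y (some (Sum.inl j)) := fun y j => by
    show ((y none • FF M o μ w + y.b) j : ℚ) = _
    simp [Dg.b]
  obtain ⟨r, r0, ⟨g, hg, Gg⟩, hW⟩ := hW
  have hY : M.q (p • r • dc (FF M o μ w) z') = (r * q * (μ * n)) •
      ((p : ℚ) / q * ((μ * n : ℕ) : ℚ)⁻¹) • M.q (dc (FF M o μ w) z') := by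
    funext j
    simp only [Mod.q_apply, Pi.smul_apply, nsmul_eq_mul, smul_eq_mul, Pi.mul_apply,
      Pi.natCast_apply]
    push_cast
    field_simp
  have r1 : 0 < r * q * (μ * n) := by positivity
  refine E.e2 f M hM o ((μ : ℚ)⁻¹ • M.q w) (((μ * n : ℕ) : ℚ)⁻¹ • M.q z.b)
    (((p : ℚ) / q * ((μ * n : ℕ) : ℚ)⁻¹) • M.q (dc (FF M o μ w) z')) η (μ * n) _ z.b s
    (by positivity) hA (fun j => ?_) (by simp [bo]) η0.le (fun j => ?_) ?_ ?_ ?_ ?_ ?_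
    ⟨_, _, g ^ p, r1, hY, fun V hV => B.oc_pow V _ g p (hg V hV), B.gen_pow _ _ g p Gg⟩ hs.1 ?_
  · have : (0 : ℚ) ≤ z.b j := by exact_mod_cast (hb j).1
    show (0 : ℚ) ≤ ((μ * n : ℕ) : ℚ)⁻¹ * z.b j
    positivity
  · have h1 := (hb j).2
    rw [en] at h1
    have h2 : (d : ℚ) * z.b j ≤ ((d : ℚ) - 1) * (μ * n : ℕ) := by exact_mod_cast h1
    have h3 : ((μ * n : ℕ) : ℚ)⁻¹ * z.b j ≤ 1 - (d : ℚ)⁻¹ := by
      rw [inv_mul_le_iff₀ m0, show ((μ * n : ℕ) : ℚ) * (1 - (d : ℚ)⁻¹) =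
        ((d : ℚ) - 1) * (μ * n : ℕ) / d by field_simp, le_div_iff₀ d0, mul_comm]
      exact h2
    have h4 : (2 * d : ℚ)⁻¹ < (d : ℚ)⁻¹ := (inv_lt_inv₀ (by positivity) d0).2 (by linarith)
    show ((μ * n : ℕ) : ℚ)⁻¹ * z.b j + η < 1
    linarith
  · intro i j V a1 a2 a3 a4 a5 a6 a7
    have h1 := hC i j ⟨V, a1, a2, a3, a4, a5, a6, a7⟩
    rw [en] at h1
    have h2 : (z.b i : ℚ) + z.b j ≤ (μ * n : ℕ) := by exact_mod_cast h1
    show ((μ * n : ℕ) : ℚ)⁻¹ * z.b i + ((μ * n : ℕ) : ℚ)⁻¹ * z.b j ≤ 1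
    rwa [← mul_add, inv_mul_le_iff₀ m0, mul_one]
  · rw [sub_eq_add_neg]
    refine AQ.semi _ (hε _ fun j => ?_)
    show |-(η * if j = o then 0 else 1)| ≤ ε
    split_ifs
    · simpa using ε0.le
    · rwa [mul_one, abs_neg, abs_of_pos η0]
  · funext j
    rw [Mod.q_apply, dcq, en]
    simp only [FF, Dg.b, Mod.q_apply, Pi.smul_apply, Pi.add_apply, nsmul_eq_mul, smul_eq_mul,
      Pi.mul_apply, Pi.natCast_apply]
    push_cast
    field_simp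
  · funext j
    simp only [Mod.q_apply, Pi.smul_apply, nsmul_eq_mul, smul_eq_mul]
    rw [mul_inv_cancel_left₀ m0.ne']
  · have h1 := AQ.semi _ (AQ.smul _ _ (inv_pos.2 m0) (hε (M.q (dc (FF M o μ w) z) -
      ((p : ℚ) / q) • M.q (dc (FF M o μ w) z')) fun j => ?_))
    · refine (congrArg M.SemiQ (funext fun j => ?_)).mp h1
      simp only [Mod.q_apply, Pi.smul_apply, Pi.add_apply, Pi.sub_apply, smul_eq_mul]
      rw [dcq z, en]
      simp only [FF, Dg.b, Pi.add_apply, nsmul_eq_mul, Pi.mul_apply, Pi.natCast_apply]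
      push_cast
      field_simp
      ring
    · refine le_trans ?_ (QF j)
      simp only [Mod.q_apply, Pi.smul_apply, Pi.sub_apply, smul_eq_mul]
      rw [dcq, dcq, show ∀ a b c a' c' t : ℚ, a * b + c - t * (a' * b + c') =
        (a - t * a') * b + (c - t * c') from fun _ _ _ _ _ _ => by ring]
      refine (abs_add_le _ _).trans ?_
      rw [abs_mul, add_mul, one_mul, mul_comm]
      exact add_le_add (mul_le_mul_of_nonneg_left (nr none) (abs_nonneg _)) (nr _)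
  · intro j V hV
    obtain ⟨e, ee⟩ := Int.eq_ofNat_of_zero_le (hθ ⟨(j, V), hV⟩).1
    refine ⟨e, ee ▸ hs.2 ⟨(j, V), hV⟩, ?_⟩
    by_cases hΓ : (⟨(j, V), hV⟩ : Cu M o) ∈ S
    · left
      have h1 : z.b j = e := (hS _ hΓ).symm.trans ee
      show ((μ * n : ℕ) : ℚ) * (((μ * n : ℕ) : ℚ)⁻¹ * z.b j) ≤ _
      rw [mul_inv_cancel_left₀ m0.ne', h1, Int.cast_natCast]
      linarith
    · right
      obtain ⟨e', g', a1, a2, a3⟩ := hW _ hΓ
      refine ⟨_, p * e', _, g' ^ p, r1, hY, fun V hV => B.oc_pow V _ g' p (a1 V hV), ?_, ?_⟩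
      · have := B.gen_pow _ _ g' p a2
        rw [smul_sub] at this
        rw [Nat.cast_mul, mul_smul, natCast_zsmul]
        exact this
      · have h1 := (abs_le.1 (nr (some (Sum.inr ⟨(j, V), hV⟩)))).1
        have h2 : (z (some (Sum.inr ⟨(j, V), hV⟩)) : ℚ) = e := by exact_mod_cast ee
        have h3 : (e' : ℚ) ≤ r * z' (some (Sum.inr ⟨(j, V), hV⟩)) := by exact_mod_cast a3
        rw [h2] at h1
        have h4 : (p : ℚ) / q * z' (some (Sum.inr ⟨(j, V), hV⟩)) ≤ e + η := by linarith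
        rw [div_mul_eq_mul_div, div_le_iff₀ q0] at h4
        have h5 := mul_le_mul_of_nonneg_left h4 (Nat.cast_nonneg (α := ℚ) r)
        have h6 := mul_le_mul_of_nonneg_left h3 p0.le
        have h7 : ((p * e' : ℕ) : ℚ) ≤ r * q * (e + η) := by
          push_cast
          linarith
        have h8 := mul_le_mul_of_nonneg_left h7 m0.le
        refine h8.trans_eq ?_
        push_cast
        ring

end Pool.Agent.MP_ee8c61_ag.M3FG
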