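import Pool.Agent.MP_ee8c61_ag.M3FG.SpecA
import Pool.Agent.MP_ee8c61_ag.M3C.SpecB

/-!
Finite generation of the homogeneous elements integral over a finitely generated graded algebra.
-/

namespace Pool.Agent.MP_ee8c61_ag.M3FG

open M3

namespace RFING

noncomputable section

variable {F D : Type} [Field F] [Algebra ℂ F] [AddCommGroup D]

/-- Elements of the group algebra all of whose coefficients are homogeneous polynomials. -/
def hom (H : Set (D × F)) : Subalgebra ℂ (AddMonoidAlgebra F D) where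
  carrier := {b | ∀ d, Sp H d (b.coeff d)}
  add_mem' := fun {a b} ha hb d => ((ha d).add (hb d)).cast rfl (by simp)
  mul_mem' := fun {a b} ha hb d => by
    classical
    rw [AddMonoidAlgebra.coeff_mul]
    refine Sp.sum _ fun e _ => Sp.sum _ fun f _ => ?_
    dsimp only
    split_ifs with h
    · exact ((ha e).mul (hb f)).cast h rfl
    · exact Sp.zero d
  algebraMap_mem' := fun z d => by
    classical
    rw [AddMonoidAlgebra.coe_algebraMap, Function.comp_apply, AddMonoidAlgebra.coeff_single,
      Finsupp.single_apply]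
    split_ifs with h
    · exact (Sp.const z).cast h rfl
    · exact Sp.zero d

theorem single_mem {H : Set (D × F)} {d : D} {u : F} (h : Sp H d u) :
    AddMonoidAlgebra.single d u ∈ hom H := by
  classical
  intro e
  rw [AddMonoidAlgebra.coeff_single, Finsupp.single_apply]
  split_ifs with h1
  · exact h.cast h1 rfl
  · exact Sp.zero e

theorem of_single_mem {H : Set (D × F)} {d : D} {u : F}
    (h : AddMonoidAlgebra.single d u ∈ hom H) : Sp H d u := by
  classical
  have h1 := h d
  rwa [AddMonoidAlgebra.coeff_single, Finsupp.single_apply, if_pos rfl] at h1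

theorem of_pow_mem {L : Type} [Field L] (V : ValuationSubring L) {x : L} {n : ℕ} (hn : 0 < n)
    (h : x ^ n ∈ V) : x ∈ V := by
  rw [← V.valuation_le_one_iff] at h ⊢
  rw [map_pow] at h
  exact (pow_le_one_iff hn.ne').1 h

theorem main (h : M3C.StmtFIN) (L : Type) [Field L] [Algebra ℂ L] [Algebra.EssFiniteType ℂ L]
    (ψ : AddMonoidAlgebra F D →ₐ[ℂ] L) (hψ : Function.Injective ψ) (G U : Set (D × F))
    (G0 : Set F) (hG : G.Finite)
    (h0 : ∀ u ∈ G0, ∀ V : ValuationSubring F, (∀ z : ℂ, algebraMap ℂ F z ∈ V) →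
      (∀ g, (0, g) ∈ G → g ∈ V) → u ∈ V)
    (hU : ∀ p ∈ U, ∃ n : ℕ, 0 < n ∧ Sp (G ∪ {0} ×ˢ G0) (n • p.1) (p.2 ^ n)) :
    ∃ G' ⊆ U, G'.Finite ∧ ∀ p ∈ U, Sp (G ∪ G') p.1 p.2 := by
  classical
  let t : D × F → L := fun p => ψ (AddMonoidAlgebra.single p.1 p.2)
  let R : Subalgebra ℂ L := Algebra.adjoin ℂ (t '' G)
  have hR : R.FG := ⟨(hG.image t).toFinset, by simp [R]⟩
  have hc : ∀ z : ℂ, t (0, algebraMap ℂ F z) = algebraMap ℂ L z := fun z => by
    rw [← ψ.commutes z, AddMonoidAlgebra.coe_algebraMap]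
    rfl
  have hN : (Submodule.span R (t '' U)).FG := by
    refine (h ℂ L R hR _).2 fun x hx V hV => ?_
    have hgen : ∀ p ∈ U, t p ∈ V := by
      intro p hp
      obtain ⟨n, hn, hs⟩ := hU p hp
      refine of_pow_mem V hn ?_
      have e : t p ^ n = t (n • p.1, p.2 ^ n) := by
        simp only [t]
        rw [← map_pow, AddMonoidAlgebra.single_pow]
      rw [e]
      refine hs.mem (P := fun d u => t (d, u) ∈ V) (fun z => ?_) ?_ (fun d => ?_)
        (fun d u v h1 h2 => ?_) fun d e u v h1 h2 => ?_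
      · rw [hc]
        exact hV _ (R.algebraMap_mem z)
      · rintro ⟨d, u⟩ (hq | ⟨hd, hu⟩)
        · exact hV _ (Algebra.subset_adjoin ⟨_, hq, rfl⟩)
        · obtain rfl : d = 0 := hd
          let φ : F →+* L := (ψ : AddMonoidAlgebra F D →+* L).comp
            AddMonoidAlgebra.singleZeroRingHom
          have hφ : ∀ g, φ g = t (0, g) := fun _ => rfl
          have := h0 u hu (V.comap φ) (fun z => ?_) fun g hg => ?_
          · rwa [ValuationSubring.mem_comap, hφ] at this
          · rw [ValuationSubring.mem_comap, hφ, hc]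
            exact hV _ (R.algebraMap_mem z)
          · rw [ValuationSubring.mem_comap, hφ]
            exact hV _ (Algebra.subset_adjoin ⟨_, hg, rfl⟩)
      · simp only [t]
        rw [AddMonoidAlgebra.single_zero, map_zero]
        exact zero_mem V
      · simp only [t] at h1 h2 ⊢
        rw [AddMonoidAlgebra.single_add, map_add]
        exact add_mem h1 h2
      · simp only [t] at h1 h2 ⊢
        rw [← AddMonoidAlgebra.single_mul_single, map_mul]
        exact mul_mem h1 h2
    induction hx using Submodule.span_induction with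
    | mem x hx =>
      obtain ⟨p, hp, rfl⟩ := hx
      exact hgen p hp
    | zero => exact zero_mem V
    | add x y _ _ h1 h2 => exact add_mem h1 h2
    | smul r x _ h1 => exact mul_mem (hV r.1 r.2) h1
  obtain ⟨s, hs1, hs2⟩ := (Submodule.fg_span_iff_fg_span_finset_subset _).1 hN
  obtain ⟨G', hG1, rfl⟩ := Finset.subset_set_image_iff.1 hs1
  refine ⟨G', hG1, G'.finite_toSet, fun p hp => ?_⟩
  have hRS : R ≤ (hom (G ∪ (G' : Set (D × F)))).map ψ := by
    refine Algebra.adjoin_le ?_
    rintro _ ⟨q, hq, rfl⟩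
    exact ⟨_, single_mem (Sp.gen (Or.inl hq)), rfl⟩
  have key : ∀ x ∈ Submodule.span R ((G'.image t : Finset L) : Set L),
      x ∈ (hom (G ∪ (G' : Set (D × F)))).map ψ := by
    intro x hx
    induction hx using Submodule.span_induction with
    | mem x hx =>
      obtain ⟨q, hq, rfl⟩ := Finset.mem_image.1 hx
      exact ⟨_, single_mem (Sp.gen (Or.inr hq)), rfl⟩
    | zero => exact zero_mem _
    | add x y _ _ h1 h2 => exact add_mem h1 h2
    | smul r x _ h1 => exact mul_mem (hRS r.2) h1
  obtain ⟨b, hb, e⟩ := key (t p) (hs2 ▸ Submodule.subset_span ⟨p, hp, rfl⟩)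
  obtain rfl : b = AddMonoidAlgebra.single p.1 p.2 := hψ e
  exact of_single_mem hb

end

end RFING

theorem rowFING (h : M3C.StmtFIN) : StmtFING := by
  intro F ι _ _ _ _ G U G0 hG h0 hU
  have : AddMonoid.FG (ι → ℤ) :=
    AddGroup.fg_iff_addMonoid_fg.1 (Module.Finite.iff_addGroup_fg.1 inferInstance)
  have : Algebra.EssFiniteType ℂ (AddMonoidAlgebra F (ι → ℤ)) :=
    Algebra.EssFiniteType.comp ℂ F _
  exact RFING.main h (FractionRing (AddMonoidAlgebra F (ι → ℤ)))
    (IsScalarTower.toAlgHom ℂ (AddMonoidAlgebra F (ι → ℤ)) _) (IsFractionRing.injective _ _)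
    G U G0 hG h0 hU

end Pool.Agent.MP_ee8c61_ag.M3FG
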