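import Pool.Agent.MP_ee8c61_ag.M3FG.SpecA

/-!
Passage to the residue field of a valuation.
-/

namespace Pool.Agent.MP_ee8c61_ag.M3FG

open M3

namespace RFINGR

variable {K k L : Type} [Field K] [Algebra ℂ K] [Field k] [Algebra ℂ k] [AddCommGroup L]

/-- A residue map for `v`. -/
structure Res (v : DV K) (r : K → k) : Prop where
  triv : Triv v
  add : ∀ a ∈ v.F 0, ∀ b ∈ v.F 0, r (a + b) = r a + r b
  mul : ∀ a ∈ v.F 0, ∀ b ∈ v.F 0, r (a * b) = r a * r b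
  con : ∀ z : ℂ, r (algebraMap ℂ K z) = algebraMap ℂ k z
  ker : ∀ a ∈ v.F 0, r a = 0 ↔ a ∈ v.F 1
  surj : ∀ y, ∃ a ∈ v.F 0, r a = y

omit [Algebra ℂ K] in
theorem pow_mem (v : DV K) {π : K} (hπ : v.v π = 1) (m : ℤ) : π ^ m ∈ v.F m := by
  have h0 : π ≠ 0 := by
    rintro rfl
    rw [v.zero] at hπ
    omega
  induction m using Int.induction_on with
  | zero => exact Or.inr (by rw [zpow_zero, v.one])
  | succ n ih =>
    rw [zpow_add_one₀ h0]
    exact v.F_mul ih (Or.inr hπ.ge)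
  | pred n ih =>
    rw [zpow_sub_one₀ h0, sub_eq_add_neg]
    exact v.F_mul ih (Or.inr (by rw [v.inv, hπ]))

namespace Res

variable {v : DV K} {r : K → k} (R : Res v r)
include R

theorem zero : r 0 = 0 := by simpa using R.con 0

theorem one : r 1 = 1 := by simpa using R.con 1

theorem neg {a : K} (ha : a ∈ v.F 0) : r (-a) = -r a := by
  have := R.add a ha (-a) (neg_mem ha)
  rw [add_neg_cancel, R.zero] at this
  exact (neg_eq_of_add_eq_zero_right this.symm).symm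

/-- The composite of `v` with a valuation ring of the residue field. -/
def comp (W : ValuationSubring k) : ValuationSubring K where
  carrier := {g | g ∈ v.F 0 ∧ r g ∈ W}
  mul_mem' := fun {a b} ha hb => ⟨by simpa using v.F_mul ha.1 hb.1, by
    rw [R.mul a ha.1 b hb.1]; exact mul_mem ha.2 hb.2⟩
  one_mem' := ⟨Or.inr v.one.ge, by rw [R.one]; exact one_mem W⟩
  add_mem' := fun {a b} ha hb => ⟨add_mem ha.1 hb.1, by
    rw [R.add a ha.1 b hb.1]; exact add_mem ha.2 hb.2⟩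
  zero_mem' := ⟨zero_mem _, by rw [R.zero]; exact zero_mem W⟩
  neg_mem' := fun {a} ha => ⟨neg_mem ha.1, by rw [R.neg ha.1]; exact neg_mem ha.2⟩
  mem_or_inv_mem' := fun g => by
    have key : ∀ x : K, x ∈ v.F 1 → x ∈ v.F 0 ∧ r x ∈ W := fun x hx => by
      have h0 : x ∈ v.F 0 := v.F_anti (by omega) hx
      exact ⟨h0, by rw [(R.ker x h0).2 hx]; exact zero_mem W⟩
    rcases lt_trichotomy (v.v g) 0 with h | h | h
    · exact Or.inr (key _ (Or.inr (by rw [v.inv]; omega)))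
    · by_cases hg : g = 0
      · exact Or.inl (key _ (Or.inl hg))
      have h1 : g ∈ v.F 0 := Or.inr h.ge
      have h2 : g⁻¹ ∈ v.F 0 := Or.inr (by rw [v.inv]; omega)
      have h3 := R.mul g h1 g⁻¹ h2
      rw [mul_inv_cancel₀ hg, R.one] at h3
      rcases W.mem_or_inv_mem (r g) with h4 | h4
      · exact Or.inl ⟨h1, h4⟩
      · exact Or.inr ⟨h2, by rw [eq_inv_of_mul_eq_one_right h3.symm]; exact h4⟩
    · exact Or.inl (key _ (Or.inr (by omega)))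

theorem ess {A : Subalgebra ℂ K} (hA : A.FG) (hAO : ∀ g ∈ A, g ∈ v.F 0)
    (hloc : ∀ g ∈ v.F 0, ∃ q ∈ A, q ∉ v.F 1 ∧ q * g ∈ A) : Algebra.EssFiniteType ℂ k := by
  classical
  obtain ⟨s, rfl⟩ := hA
  have key : ∀ a ∈ Algebra.adjoin ℂ (s : Set K),
      r a ∈ Algebra.adjoin ℂ ((s.image r : Finset k) : Set k) := fun a ha => by
    induction ha using Algebra.adjoin_induction with
    | mem x hx =>
      exact Algebra.subset_adjoin (Finset.mem_coe.2 (Finset.mem_image_of_mem r hx))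
    | algebraMap z => rw [R.con]; exact Subalgebra.algebraMap_mem _ z
    | add x y hx hy h1 h2 => rw [R.add x (hAO x hx) y (hAO y hy)]; exact add_mem h1 h2
    | mul x y hx hy h1 h2 => rw [R.mul x (hAO x hx) y (hAO y hy)]; exact mul_mem h1 h2
  refine (Algebra.essFiniteType_iff ℂ k).2 ⟨s.image r, fun y => ?_⟩
  obtain ⟨g, hg, rfl⟩ := R.surj y
  obtain ⟨q, hq, hq1, hqg⟩ := hloc g hg
  refine ⟨r q, key q hq, isUnit_iff_ne_zero.2 fun h => hq1 ((R.ker q (hAO q hq)).1 h), ?_⟩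
  rw [mul_comm, ← R.mul q (hAO q hq) g hg]
  exact key _ hqg

end Res

/-- The leading coefficient in degree `d`. -/
def rho (r : K → k) (π : K) (δ : L →+ ℤ) (d : L) (g : K) : k := r (g * π ^ δ d)

/-- The same on pairs. -/
def rh (r : K → k) (π : K) (δ : L →+ ℤ) (p : L × K) : L × k := (p.1, rho r π δ p.1 p.2)

section rho

variable {v : DV K} {r : K → k} (R : Res v r) {π : K} (hπ : v.v π = 1) (δ : L →+ ℤ)
include hπ

omit [Algebra ℂ K] in
theorem sh {d : L} {g : K} (hg : g ∈ v.F (-δ d)) : g * π ^ δ d ∈ v.F 0 := by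
  simpa using v.F_mul hg (pow_mem v hπ (δ d))

include R

theorem rho_add {d : L} {g h : K} (hg : g ∈ v.F (-δ d)) (hh : h ∈ v.F (-δ d)) :
    rho r π δ d (g + h) = rho r π δ d g + rho r π δ d h := by
  unfold rho
  rw [add_mul, R.add _ (sh hπ δ hg) _ (sh hπ δ hh)]

theorem rho_mul {d e : L} {g h : K} (hg : g ∈ v.F (-δ d)) (hh : h ∈ v.F (-δ e)) :
    rho r π δ (d + e) (g * h) = rho r π δ d g * rho r π δ e h := by
  have h0 : π ≠ 0 := by
    rintro rfl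
    rw [v.zero] at hπ
    omega
  unfold rho
  rw [← R.mul _ (sh hπ δ hg) _ (sh hπ δ hh), map_add, zpow_add₀ h0, mul_mul_mul_comm]

omit hπ in
theorem rho_con (z : ℂ) : rho r π δ 0 (algebraMap ℂ K z) = algebraMap ℂ k z := by
  unfold rho
  rw [map_zero, zpow_zero, mul_one, R.con]

omit hπ in
theorem rho_zero (d : L) : rho r π δ d 0 = 0 := by
  unfold rho
  rw [zero_mul, R.zero]

theorem rho_pow {d : L} {g : K} (hg : g ∈ v.F (-δ d)) (n : ℕ) :
    g ^ n ∈ v.F (-δ (n • d)) ∧ rho r π δ (n • d) (g ^ n) = rho r π δ d g ^ n := by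
  induction n with
  | zero =>
    rw [zero_nsmul, pow_zero, pow_zero]
    exact ⟨by simpa using R.triv 1, by simpa using rho_con R δ (π := π) 1⟩
  | succ n ih =>
    rw [succ_nsmul, pow_succ, pow_succ, rho_mul R hπ δ ih.1 hg, ih.2, map_add, neg_add]
    exact ⟨v.F_mul ih.1 hg, rfl⟩

theorem rho_eq {d : L} {g h : K} (hg : g ∈ v.F (-δ d)) (hh : h ∈ v.F (-δ d)) :
    rho r π δ d g = rho r π δ d h ↔ g - h ∈ v.F (1 - δ d) := by
  have h0 : π ≠ 0 := by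
    rintro rfl
    rw [v.zero] at hπ
    omega
  have h1 := rho_add R hπ δ (sub_mem hg hh) hh
  rw [sub_add_cancel] at h1
  rw [h1, add_eq_right]
  unfold rho
  rw [R.ker _ (sh hπ δ (sub_mem hg hh))]
  constructor
  · intro h2
    have := v.F_mul h2 (pow_mem v hπ (-δ d))
    rwa [mul_assoc, ← zpow_add₀ h0, add_neg_cancel, zpow_zero, mul_one, ← sub_eq_add_neg] at this
  · intro h2
    simpa using v.F_mul h2 (pow_mem v hπ (δ d))

theorem down {G : Set (L × K)} (hG : ∀ p ∈ G, p.2 ∈ v.F (-δ p.1)) {d : L} {u : K}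
    (h : Sp G d u) : Sp (rh r π δ '' G) d (rho r π δ d u) := by
  induction h with
  | const z => exact (Sp.const z).cast rfl (rho_con R δ z).symm
  | gen h => exact Sp.gen ⟨_, h, rfl⟩
  | zero d => exact (Sp.zero d).cast rfl (rho_zero R δ d).symm
  | add a b h1 h2 =>
    exact (h1.add h2).cast rfl (rho_add R hπ δ (a.mem_F R.triv δ hG) (b.mem_F R.triv δ hG)).symm
  | mul a b h1 h2 =>
    exact (h1.mul h2).cast rfl (rho_mul R hπ δ (a.mem_F R.triv δ hG) (b.mem_F R.triv δ hG)).symm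

theorem up {G : Set (L × K)} (hG : ∀ p ∈ G, p.2 ∈ v.F (-δ p.1)) {d : L} {y : k}
    (h : Sp (rh r π δ '' G) d y) : ∃ u, Sp G d u ∧ rho r π δ d u = y := by
  refine h.mem (P := fun d y => ∃ u, Sp G d u ∧ rho r π δ d u = y)
    (fun z => ⟨_, Sp.const z, rho_con R δ z⟩) ?_ (fun d => ⟨0, Sp.zero d, rho_zero R δ d⟩) ?_ ?_
  · rintro _ ⟨p, hp, rfl⟩
    exact ⟨p.2, Sp.gen hp, rfl⟩
  · rintro d _ _ ⟨a, ha, rfl⟩ ⟨b, hb, rfl⟩
    exact ⟨a + b, ha.add hb, rho_add R hπ δ (ha.mem_F R.triv δ hG) (hb.mem_F R.triv δ hG)⟩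
  · rintro d e _ _ ⟨a, ha, rfl⟩ ⟨b, hb, rfl⟩
    exact ⟨a * b, ha.mul hb, rho_mul R hπ δ (ha.mem_F R.triv δ hG) (hb.mem_F R.triv δ hG)⟩

end rho

theorem core (h : StmtFING) {ι : Type} [Fintype ι] {v : DV K} {r : K → k} (R : Res v r)
    [Algebra.EssFiniteType ℂ k] {π : K} (hπ : v.v π = 1) (δ : (ι → ℤ) →+ ℤ)
    (G U : Set ((ι → ℤ) × K)) (G0 : Set K) (hf : G.Finite) (hG : ∀ p ∈ G, p.2 ∈ v.F (-δ p.1))
    (h0 : ∀ u ∈ G0, ∀ V : ValuationSubring K, V ≤ v.O → (∀ z : ℂ, algebraMap ℂ K z ∈ V) →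
      (∀ g, (0, g) ∈ G → g ∈ V) → u ∈ V)
    (hU : ∀ p ∈ U, p.2 ∈ v.F (-δ p.1) ∧
      ∃ n : ℕ, 0 < n ∧ SpM v δ (G ∪ {0} ×ˢ G0) (n • p.1) (p.2 ^ n)) :
    ∃ G' ⊆ U, G'.Finite ∧ ∀ p ∈ U, SpM v δ (G ∪ G') p.1 p.2 := by
  have hG0 : ∀ g, (0, g) ∈ G → g ∈ v.F 0 := fun g hg => by simpa using hG _ hg
  have hr : ∀ g, rho r π δ 0 g = r g := fun g => by
    unfold rho
    rw [map_zero, zpow_zero, mul_one]
  have hGG : ∀ p ∈ G ∪ {0} ×ˢ G0, p.2 ∈ v.F (-δ p.1) := by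
    rintro p (hp | ⟨hp1, hp2⟩)
    · exact hG p hp
    · rw [Set.mem_singleton_iff.1 hp1, map_zero, neg_zero]
      exact h0 _ hp2 v.O le_rfl R.triv hG0
  have hA : ∀ u ∈ r '' G0, ∀ W : ValuationSubring k, (∀ z : ℂ, algebraMap ℂ k z ∈ W) →
      (∀ g, (0, g) ∈ rh r π δ '' G → g ∈ W) → u ∈ W := by
    rintro _ ⟨u, hu, rfl⟩ W hW1 hW2
    refine (h0 u hu (R.comp W) (fun g hg => hg.1) (fun z => ⟨R.triv z, ?_⟩) fun g hg =>
      ⟨hG0 g hg, ?_⟩).2
    · rw [R.con]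
      exact hW1 z
    · exact hW2 _ ⟨_, hg, Prod.ext rfl (hr g)⟩
  have hB : ∀ p ∈ rh r π δ '' U, ∃ n : ℕ, 0 < n ∧
      Sp (rh r π δ '' G ∪ {0} ×ˢ (r '' G0)) (n • p.1) (p.2 ^ n) := by
    rintro _ ⟨p, hp, rfl⟩
    obtain ⟨h1, n, hn, u, hu, h2⟩ := hU p hp
    obtain ⟨h3, h4⟩ := rho_pow R hπ δ h1 n
    refine ⟨n, hn, ((down R hπ δ hGG hu).mono ?_).cast rfl
      (((rho_eq R hπ δ h3 (hu.mem_F R.triv δ hGG)).2 h2).symm.trans h4)⟩
    rintro _ ⟨⟨d, g⟩, hq | ⟨hq1, hq2⟩, rfl⟩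
    · exact Or.inl ⟨_, hq, rfl⟩
    · obtain rfl : d = 0 := hq1
      exact Or.inr ⟨rfl, g, hq2, (hr g).symm⟩
  obtain ⟨G', h1, h2, h3⟩ := Set.exists_subset_image_finite_and.1
    (h k ι (rh r π δ '' G) (rh r π δ '' U) (r '' G0) (hf.image _) hA hB)
  refine ⟨G', h1, h2, fun p hp => ?_⟩
  have hG' : ∀ p ∈ G ∪ G', p.2 ∈ v.F (-δ p.1) := by
    rintro p (hp | hp)
    · exact hG p hp
    · exact (hU p (h1 hp)).1
  have h4 := h3 _ ⟨p, hp, rfl⟩
  rw [← Set.image_union] at h4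
  obtain ⟨u, hu, h5⟩ := up R hπ δ hG' h4
  exact ⟨u, hu, (rho_eq R hπ δ (hU p hp).1 (hu.mem_F R.triv δ hG')).1 h5.symm⟩

omit [Algebra ℂ K] in
theorem res_zero (v : DV K) (a : v.O) : IsLocalRing.residue v.O a = 0 ↔ (a : K) ∈ v.F 1 := by
  rw [IsLocalRing.residue_eq_zero_iff, IsLocalRing.mem_maximalIdeal, mem_nonunits_iff]
  constructor
  · intro h
    by_contra h1
    have h2 : (a : K) ≠ 0 := fun h => h1 (Or.inl h)
    have h3 : ¬1 ≤ v.v a := fun h => h1 (Or.inr h)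
    have h4 : (a : K)⁻¹ ∈ v.O := Or.inr (by rw [v.inv]; omega)
    exact h (IsUnit.of_mul_eq_one (⟨_, h4⟩ : v.O) (Subtype.ext (mul_inv_cancel₀ h2)))
  · intro h1 h
    obtain ⟨b, hb⟩ := h.exists_right_inv
    have h2 := v.F_mul h1 (show (b : K) ∈ v.F 0 from b.2)
    have h3 : (a : K) * b = 1 := congrArg Subtype.val hb
    rw [h3] at h2
    rcases h2 with h2 | h2
    · exact one_ne_zero h2
    · rw [v.one] at h2
      omega

theorem exists_res (v : DV K) (hv : Triv v) :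
    ∃ (k : Type) (_ : Field k) (_ : Algebra ℂ k) (r : K → k), Res v r := by
  classical
  let c : ℂ →+* v.O := (algebraMap ℂ K).codRestrict v.O hv
  let r : K → IsLocalRing.ResidueField v.O := fun g =>
    if h : g ∈ v.O then IsLocalRing.residue v.O ⟨g, h⟩ else 0
  have hr : ∀ (g : K) (h : g ∈ v.O), r g = IsLocalRing.residue v.O ⟨g, h⟩ := fun g h => dif_pos h
  refine ⟨IsLocalRing.ResidueField v.O, inferInstance,
    ((IsLocalRing.residue v.O).comp c).toAlgebra, r, @Res.mk _ _ _ _ _ (_) _ _ hv ?_ ?_ ?_ ?_ ?_⟩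
  · intro a ha b hb
    rw [hr a ha, hr b hb, hr (a + b) (add_mem (s := v.O) ha hb), ← map_add]
    rfl
  · intro a ha b hb
    rw [hr a ha, hr b hb, hr (a * b) (mul_mem (s := v.O) ha hb), ← map_mul]
    rfl
  · intro z
    rw [hr _ (hv z)]
    rfl
  · intro a ha
    rw [hr a ha, res_zero]
  · intro y
    obtain ⟨a, rfl⟩ := IsLocalRing.residue_surjective y
    exact ⟨a, a.2, hr a a.2⟩

end RFINGR

theorem rowFINGR (h : StmtFING) : StmtFINGR := by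
  intro K ι _ _ _ v A π δ G U G0 hA hAO hπ hloc hf hG h0 hU
  obtain ⟨k, _, _, r, R⟩ := RFINGR.exists_res v fun z => hAO _ (A.algebraMap_mem z)
  have := R.ess hA hAO hloc
  exact RFINGR.core h R hπ δ G U G0 hf hG h0 hU

end Pool.Agent.MP_ee8c61_ag.M3FG
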