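import Pool.Agent.MP_ee8c61_ag.M3FG.SpecB

/-! Finiteness for sections on a divisor of a model. -/

namespace Pool.Agent.MP_ee8c61_ag.M3FG

open M3 M3E

theorem rowFINM : OfFINM := by
  intro E h N f M hM o ι _ δ G U hG h1 h2 h3
  have B := E.bas N f M hM
  obtain ⟨b, hb⟩ := hM.ne o
  obtain ⟨d1, d2, -⟩ := hM.dv b o hb
  have fg : (M.S.A b).FG := by
    refine (Subalgebra.fg_iff_finiteType _).2 ?_
    have h4 : (M.S.zh b).toRingHom.FiniteType :=
      RingHom.FiniteType.of_finitePresentation (hM.et b).finitePresentation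
    have h5 := h4.comp (RingHom.finiteType_algebraMap.2
      (inferInstance : Algebra.FiniteType ℂ (MvPolynomial (Fin N) ℂ)))
    rw [AlgHom.toRingHom_eq_coe, AlgHom.comp_algebraMap] at h5
    exact RingHom.finiteType_algebraMap.1 h5
  refine h (KK N) ι (M.v o) (M.S.A b) (M.η b o) δ G U (M.R o 0) fg d1 d2 (fun g hg => ?_) hG h1
    (fun u hu V hV hc hx => ?_) h3
  · obtain ⟨s, s1, s2, s3⟩ := B.frac b o d1 g hg
    obtain ⟨s4, s5⟩ := (M.v o).un_O.1 s2
    refine ⟨s, s1, fun e => ?_, s3⟩
    have := e.resolve_left s4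
    omega
  · have hO : Ov V := fun p => by
      induction p using MvPolynomial.induction_on with
      | C c => exact (ip N).commutes c ▸ hc c
      | add p q hp hq => rw [map_add]; exact add_mem hp hq
      | mul_X p l hp => rw [map_mul]; exact mul_mem hp (hx _ (h2 l))
    obtain ⟨a, ha⟩ := hM.cov V hO
    simpa [B.mon_zero] using hu V hO hV a ha

end Pool.Agent.MP_ee8c61_ag.M3FG
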