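import Pool.Agent.MP_ee8c61_ag.M3FG.SpecA

/-! Sets that are open along rays are generated by finitely many of their elements. -/

namespace Pool.Agent.MP_ee8c61_ag.M3FG

open M3 Finset

namespace RPOLY

variable {ι : Type} [Fintype ι]

theorem near {R n r r' : ℕ} (hn : 0 < n) (h : r * R / n = r' * R / n) :
    (R : ℤ) * |(r : ℤ) - r'| < n := by
  have h1 := Nat.div_add_mod (r * R) n
  have h2 := Nat.div_add_mod (r' * R) n
  have h3 := Nat.mod_lt (r * R) hn
  have h4 := Nat.mod_lt (r' * R) hn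
  rw [h] at h1
  have e : (R : ℤ) * |(r : ℤ) - r'| = |((r * R : ℕ) : ℤ) - (r' * R : ℕ)| := by
    push_cast
    rw [← sub_mul, abs_mul, Nat.abs_cast, mul_comm]
  rw [e, abs_lt]
  omega

omit [Fintype ι] in
theorem pair (x : ι → ℕ) {R n s s' : ℕ} (hn : 0 < n) (hs : s ≤ s')
    (h : ∀ l, s * x l % n * R / n = s' * x l % n * R / n) :
    ∃ y : ι → ℕ, ∀ l, (R : ℤ) * |(n : ℤ) * y l - ((s' - s : ℕ) : ℤ) * x l| < n := by
  refine ⟨fun l => s' * x l / n - s * x l / n, fun l => ?_⟩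
  have h0 : s * x l / n ≤ s' * x l / n := Nat.div_le_div_right (Nat.mul_le_mul_right _ hs)
  have h1 : ((n * (s * x l / n) + s * x l % n : ℕ) : ℤ) = (s * x l : ℕ) :=
    congrArg _ (Nat.div_add_mod _ n)
  have h2 : ((n * (s' * x l / n) + s' * x l % n : ℕ) : ℤ) = (s' * x l : ℕ) :=
    congrArg _ (Nat.div_add_mod _ n)
  have e : (n : ℤ) * (s' * x l / n - s * x l / n : ℕ) - ((s' - s : ℕ) : ℤ) * x l =
      ((s * x l % n : ℕ) : ℤ) - (s' * x l % n : ℕ) := by
    rw [Nat.cast_sub h0, Nat.cast_sub hs]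
    rw [Nat.cast_add, Nat.cast_mul n, Nat.cast_mul] at h1 h2
    linear_combination h2 - h1
  rw [e]
  exact near hn (h l)

theorem dirichlet (x : ι → ℕ) {R n : ℕ} (hR : 0 < R) (hn : 0 < n) :
    ∃ s : ℕ, 0 < s ∧ s ≤ R ^ Fintype.card ι ∧
      ∃ y : ι → ℕ, ∀ l, (R : ℤ) * |(n : ℤ) * y l - (s : ℤ) * x l| < n := by
  classical
  let f : Fin (R ^ Fintype.card ι + 1) → ι → Fin R := fun s l =>
    ⟨s * x l % n * R / n, by
      rw [Nat.div_lt_iff_lt_mul hn, mul_comm R]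
      exact Nat.mul_lt_mul_of_pos_right (Nat.mod_lt _ hn) hR⟩
  obtain ⟨a, b, hab, h⟩ := Fintype.exists_ne_map_eq_of_card_lt f (by simp)
  have h' : ∀ l, a * x l % n * R / n = b * x l % n * R / n := fun l =>
    congrArg Fin.val (congrFun h l)
  have ha := a.2
  have hb := b.2
  rcases lt_or_gt_of_ne (Fin.val_ne_of_ne hab) with g | g
  · exact ⟨b - a, by omega, by omega, pair x hn g.le h'⟩
  · exact ⟨a - b, by omega, by omega, pair x hn g.le fun l => (h' l).symm⟩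

theorem core {D : Set (ι → ℕ)} {R : ℕ} (hR : 0 < R)
    (h : ∀ x ∈ D, ∀ (y : ι → ℕ) (p q : ℕ), 0 < p → 0 < q →
      (∀ l, (R : ℤ) * |(q : ℤ) * y l - (p : ℤ) * x l| ≤ q) → y ∈ D) (k : ℕ) :
    ∀ x ∈ D, ∑ l, x l = k →
      x ∈ AddSubmonoid.closure {z | z ∈ D ∧ ∀ l, z l ≤ R ^ Fintype.card ι} := by
  induction k using Nat.strong_induction_on with
  | _ k ih =>
    intro x hx hk
    by_cases hb : ∀ l, x l ≤ R ^ Fintype.card ι
    · exact AddSubmonoid.subset_closure ⟨hx, hb⟩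
    push Not at hb
    obtain ⟨l1, hl1⟩ := hb
    obtain ⟨l0, -, hm⟩ := exists_max_image univ x ⟨l1, mem_univ _⟩
    have hn : R ^ Fintype.card ι < x l0 := hl1.trans_le (hm l1 (mem_univ _))
    have hn0 : 0 < x l0 := by omega
    obtain ⟨s, hs0, hs, y, hy⟩ := dirichlet x hR hn0
    have hsn : s < x l0 := hs.trans_lt hn
    have hy1 : ∀ l, |(x l0 : ℤ) * y l - (s : ℤ) * x l| < x l0 := fun l =>
      (le_mul_of_one_le_left (abs_nonneg _) (by exact_mod_cast hR)).trans_lt (hy l)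
    have hz : (0 : ℤ) < x l0 := by exact_mod_cast hn0
    have hle : ∀ l, y l ≤ x l := fun l => by
      have h1 := (abs_lt.1 (hy1 l)).2
      have h2 : (s : ℤ) * x l ≤ x l0 * x l :=
        mul_le_mul_of_nonneg_right (by exact_mod_cast hsn.le) (Nat.cast_nonneg _)
      have h3 : (x l0 : ℤ) * y l < x l0 * (x l + 1) := by linarith
      have h4 := lt_of_mul_lt_mul_left h3 hz.le
      omega
    have h0 : y l0 = s := by
      have h1 := abs_lt.1 (hy1 l0)
      have h3 : (x l0 : ℤ) * y l0 < x l0 * (s + 1) := by linarith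
      have h4 : (x l0 : ℤ) * s < x l0 * (y l0 + 1) := by linarith
      have h5 := lt_of_mul_lt_mul_left h3 hz.le
      have h6 := lt_of_mul_lt_mul_left h4 hz.le
      omega
    have hyD : y ∈ D := h x hx y s (x l0) hs0 hn0 fun l => (hy l).le
    have hzD : (fun l => x l - y l) ∈ D := h x hx _ (x l0 - s) (x l0) (by omega) hn0 fun l => by
      have e : (x l0 : ℤ) * (x l - y l : ℕ) - ((x l0 - s : ℕ) : ℤ) * x l =
          -((x l0 : ℤ) * y l - (s : ℤ) * x l) := by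
        rw [Nat.cast_sub (hle l), Nat.cast_sub hsn.le]
        ring
      rw [e, abs_neg]
      exact (hy l).le
    have e : x = y + fun l => x l - y l := funext fun l => (Nat.add_sub_cancel' (hle l)).symm
    rw [e]
    refine add_mem (ih _ ?_ y hyD rfl) (ih _ ?_ _ hzD rfl)
    · rw [← hk]
      exact sum_lt_sum (fun l _ => hle l) ⟨l0, mem_univ _, by omega⟩
    · rw [← hk]
      exact sum_lt_sum (fun l _ => Nat.sub_le _ _) ⟨l0, mem_univ _, by omega⟩

theorem bound {R Q q : ℕ} (hR : 0 < R) (d a : ι → ℤ) (hd : ∀ l, (R : ℤ) * |d l| ≤ q)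
    (ha : (Q : ℤ) * ∑ l, |a l| ≤ R) : (Q : ℤ) * |∑ l, d l * a l| ≤ q := by
  have hz : (0 : ℤ) < R := by exact_mod_cast hR
  have h1 : (R : ℤ) * |∑ l, d l * a l| ≤ q * ∑ l, |a l| := by
    refine (mul_le_mul_of_nonneg_left (abs_sum_le_sum_abs _ _) hz.le).trans ?_
    rw [mul_sum, mul_sum]
    refine sum_le_sum fun l _ => ?_
    rw [abs_mul, ← mul_assoc]
    exact mul_le_mul_of_nonneg_right (hd l) (abs_nonneg _)
  refine le_of_mul_le_mul_left ?_ hz
  calc (R : ℤ) * (Q * |∑ l, d l * a l|) = Q * (R * |∑ l, d l * a l|) := by ring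
    _ ≤ Q * (q * ∑ l, |a l|) := mul_le_mul_of_nonneg_left h1 (Nat.cast_nonneg _)
    _ = q * (Q * ∑ l, |a l|) := by ring
    _ ≤ q * R := mul_le_mul_of_nonneg_left ha (Nat.cast_nonneg _)
    _ = R * q := mul_comm _ _

end RPOLY

open RPOLY in
theorem rowPOLY : StmtPOLY := by
  classical
  intro N κ _ hN _ l C Q h
  have := Fintype.ofFinite κ
  obtain ⟨S, hS⟩ := hN.fg_top
  let π : (S → ℕ) →+ N :=
    { toFun := fun x => ∑ j : S, x j • (j : N)
      map_zero' := by simp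
      map_add' := fun x y => by simp [add_smul, sum_add_distrib] }
  have hπ : ∀ i x, l i (π x) = ∑ j : S, (x j : ℤ) * l i j := fun i x => by
    simp [π, map_sum]
  let R : ℕ := 1 + Q * ∑ i, ∑ j : S, (l i j).natAbs
  have hR : 0 < R := by omega
  have ha : ∀ i, (Q : ℤ) * ∑ j : S, |l i j| ≤ R := fun i => by
    have h1 : ∑ j : S, (l i j).natAbs ≤ ∑ i, ∑ j : S, (l i j).natAbs :=
      single_le_sum (f := fun i => ∑ j : S, (l i j).natAbs) (fun _ _ => Nat.zero_le _) (mem_univ i)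
    have h2 : Q * ∑ j : S, (l i j).natAbs ≤ R :=
      (Nat.mul_le_mul_left Q h1).trans (Nat.le_add_left _ 1)
    have h3 : ((Q * ∑ j : S, (l i j).natAbs : ℕ) : ℤ) ≤ R := by exact_mod_cast h2
    simpa only [Nat.cast_mul, Nat.cast_sum, Int.natCast_natAbs] using h3
  have hD := core (D := π ⁻¹' C) hR fun x hx y p q hp hq hxy => h _ hx _ p q hp hq fun i => by
    rw [hπ, hπ, mul_sum, mul_sum, ← sum_sub_distrib]
    simp only [← mul_assoc, ← sub_mul]
    exact bound hR _ _ hxy (ha i)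
  have hF : {z : S → ℕ | z ∈ π ⁻¹' C ∧ ∀ j, z j ≤ R ^ Fintype.card S}.Finite :=
    (Set.finite_Iic fun _ : S => R ^ Fintype.card S).subset fun z hz => hz.2
  refine ⟨(hF.image π).toFinset, ?_, fun x hx => ?_⟩
  · rw [Set.Finite.coe_toFinset]
    rintro _ ⟨z, hz, rfl⟩
    exact hz.1
  · obtain ⟨a, rfl⟩ : ∃ a, x = π a :=
      AddSubmonoid.mem_closure_finset'.1 (hS.symm ▸ AddSubmonoid.mem_top x)
    rw [Set.Finite.coe_toFinset, ← AddMonoidHom.map_mclosure]
    exact AddSubmonoid.mem_map_of_mem π (hD _ a hx rfl)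

end Pool.Agent.MP_ee8c61_ag.M3FG
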