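import Pool.Agent.MP_ee8c61_ag.M3FG.RRESa

/-!
The restricted ring on the cone of canonical boundaries is finitely generated.
-/

namespace Pool.Agent.MP_ee8c61_ag.M3FG

open M3 M3E Finset

noncomputable section

namespace RRES

variable {N : ℕ} {f : Po N} {M : Mod N} {o : M.J}

/-- The degrees that belong to a set of curves. -/
def KS (μ d : ℕ) (S : Set (Cu M o)) (y : Dg M o) : Prop :=
  KP μ d y ∧ CanZ M o (μ * y none) y.b ∧ ∀ Γ ∈ S, y.θ Γ = y.b Γ.1.1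

theorem cone_KS [Finite (Cu M o)] (μ d : ℕ) (S : Set (Cu M o)) : Cone (KS μ d S) := by
  refine (((Cone.le ?_ ?_).and ((Cone.eq ?_ ?_).and (Cone.all fun j =>
    (Cone.le ?_ ?_).and (Cone.le ?_ ?_)))).and (Cone.all fun Γ =>
    (Cone.le ?_ ?_).and (Cone.le ?_ ?_))).and ((Cone.all fun i => Cone.all fun j =>
    Cone.of _ (Cone.le ?_ ?_)).and (Cone.all fun Γ => Cone.of _ (Cone.eq ?_ ?_)))
  all_goals
    intros
    simp only [Dg.b, Dg.θ, Pi.add_apply, Pi.zero_apply]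
    ring

variable {ι : Type} [Fintype ι]

/-- Tuples of monomials of the same degree, one for each curve. -/
def NS (μ d : ℕ) (F : M.J → ℤ) (z : ι → Dg M o) (g : ι → KK N) (S : Set (Cu M o))
    (x : Option (Cu M o) → ι → ℕ) : Prop :=
  KS μ d S (deg z (x none)) ∧ ∀ Γ, deg z (x (some Γ)) = deg z (x none) ∧
    (Γ ∉ S → ∀ i, ¬M.Gen Γ.1.2 (cz F Γ (z i)) (g i) → x (some Γ) i = 0)

theorem cone_NS [Finite (Cu M o)] (μ d : ℕ) (F : M.J → ℤ) (z : ι → Dg M o) (g : ι → KK N)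
    (S : Set (Cu M o)) : Cone (NS μ d F z g S) := by
  refine ((cone_KS μ d S).comp ((deg z).comp
    (Pi.evalAddMonoidHom (fun _ : Option (Cu M o) => ι → ℕ) none))).and
    (Cone.all fun Γ => Cone.and ?_ (Cone.of _ (Cone.all fun i => Cone.of _ ?_)))
  · refine Cone.iff (Cone.all fun k => Cone.eq ?_ ?_) fun _ => funext_iff
    · simp
    · intro x y
      simp only [Pi.add_apply, map_add]
      ring
  · refine Cone.iff (Cone.eq (a := fun x => (x (some Γ) i : ℤ)) (b := fun _ => 0) ?_ ?_)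
      fun _ => Nat.cast_eq_zero.symm
    · simp
    · intro x y
      simp only [Pi.add_apply, Nat.cast_add]
      ring

theorem box_zero {μ d : ℕ} {b : M.J → ℤ} (hd : 0 < d) (h : Box M o μ d 0 b) : b = 0 :=
  funext fun j => by
    obtain ⟨h1, h2⟩ := h.2.2 j
    rw [mul_zero, mul_zero] at h2
    exact le_antisymm (nonpos_of_mul_nonpos_right h2 (Int.natCast_pos.2 hd)) h1

variable (hB : Bas f M) {μ d : ℕ} {F : M.J → ℤ} {z : ι → Dg M o} {g : ι → KK N}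
  {S : Set (Cu M o)}

include hB

theorem wit (h : ∀ i, g i ∈ RS F (z i)) (hO : ∀ i, M.Gen (M.v o).O (dc F (z i)) (g i))
    {x : Option (Cu M o) → ι → ℕ} (hx : NS μ d F z g S x)
    (hl : ∀ s ∈ RS F (deg z (x none)), M.Lf o (dc F (deg z (x none))) s) :
    Wit F S (deg z (x none)) := by
  refine ⟨1, one_pos, ?_, fun Γ hΓ => ?_⟩
  · rw [one_nsmul]
    exact lf_gen hB (hl _ (mn_rs hB h _)) le_rfl
      (mn_gen hB (dc F) (map_zero _) (map_add _) _ fun i _ => hO i) rfl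
  · obtain ⟨e, he⟩ := Int.eq_ofNat_of_zero_le (hx.1.1.2 Γ).1
    obtain ⟨e1, e2⟩ := hx.2 Γ
    have h1 := mn_gen hB (V := Γ.1.2) (z := z) (g := g) (cz F Γ) (cz_zero F Γ) (cz_add F Γ)
      (x (some Γ)) fun i hi => by_contra fun h0 => hi (e2 hΓ i h0)
    have h2 := mn_rs hB h (x (some Γ))
    rw [e1] at h1 h2
    obtain ⟨u, h3, h4⟩ := lf_gen hB (hl _ h2) Γ.2.2.2.1 h1 (sub_o Γ _ _)
    rw [one_nsmul]
    exact ⟨e, u, h3, he ▸ h4, by rw [he]; simp⟩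

theorem gens_F {G : Set ((M.J → ℤ) × KK N)} (hG : ∀ p ∈ G, p.2 ∈ M.H p.1) :
    ∀ p ∈ G ∪ {0} ×ˢ M.R o 0, p.2 ∈ (M.v o).F (-ev M o p.1) := by
  rintro ⟨c, u⟩ (hp | ⟨rfl, hp⟩)
  · exact hB.R_F o c u (hB.H_R o c (hG _ hp))
  · exact hB.R_F o 0 u hp

theorem perS (hG : StmtGOR) (hP : StmtPOLY) [Finite (Cu M o)] (hd : 0 < d) {Q : ℕ} (hQ : 2 ≤ Q)
    (hD : ∀ (y y' : Dg M o) (p q : ℕ), 0 < p → 0 < q →
      (∀ i, (Q : ℤ) * |(q : ℤ) * y i - (p : ℤ) * y' i| ≤ q) → KS μ d S y → 0 < y none →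
      Wit F S y' → ∀ s ∈ RS F y, M.Lf o (dc F y) s)
    (h : ∀ i, g i ∈ RS F (z i)) (hO : ∀ i, M.Gen (M.v o).O (dc F (z i)) (g i)) :
    ∃ G : Set ((M.J → ℤ) × KK N), G.Finite ∧ (∀ p ∈ G, p.2 ∈ M.H p.1) ∧
      ∀ x, NS μ d F z g S x → Wit F S (deg z (x none)) →
        SpM (M.v o) (ev M o) (G ∪ {0} ×ˢ M.R o 0) (dc F (deg z (x none))) (mn g (x none)) := by
  have : AddMonoid.FG (Option (Cu M o) → ι → ℕ) := Module.Finite.iff_addMonoid_fg.1 inferInstance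
  obtain ⟨T, h1, h2, h3⟩ := poly_cone hG hP (cone_NS μ d F z g S)
    (fun k => (Pi.evalAddMonoidHom _ k).comp ((deg z).comp (Pi.evalAddMonoidHom _ none)))
    (fun x => deg z (x none) none = 0 ∨ Wit F S (deg z (x none))) Q (by
      intro x _ hx y hy p q hp hq hi
      replace hi : ∀ i, (Q : ℤ) * |(q : ℤ) * deg z (y none) i - (p : ℤ) * deg z (x none) i| ≤ q :=
        hi
      rcases hy.1.1.1.1.eq_or_lt with h0 | h0
      · exact Or.inl h0.symm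
      refine Or.inr (wit hB h hO hy (hD _ _ p q hp hq hi hy.1 h0 (hx.resolve_left fun h5 => ?_)))
      have h6 := hi none
      have h7 : (0 : ℤ) < q := Int.natCast_pos.2 hq
      have h8 : (2 : ℤ) ≤ Q := by exact_mod_cast hQ
      rw [h5, mul_zero, sub_zero, abs_of_pos (mul_pos h7 h0)] at h6
      nlinarith [mul_le_mul h8 (mul_le_mul_of_nonneg_left (show 1 ≤ _ from h0) h7.le)
        (by omega) (by omega)])
  have h4 : ∀ t, ∃ u ∈ M.H (dc F (deg z (t none))), t ∈ T → dc F (deg z (t none)) = 0 ∨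
      mn g (t none) - u ∈ (M.v o).F (1 - dc F (deg z (t none)) o) := fun t => by
    have h0 : (0 : KK N) ∈ M.H (dc F (deg z (t none))) := fun V _ b _ => by
      rw [zero_mul]
      exact zero_mem _
    by_cases ht : t ∈ T
    swap
    · exact ⟨0, h0, fun h => (ht h).elim⟩
    obtain ⟨h5, h6⟩ := h2 t ht
    rcases h5.1.1.1.1.eq_or_lt with h7 | h7
    · refine ⟨0, h0, fun _ => Or.inl ?_⟩
      change deg z (t none) none • F + (deg z (t none)).b = 0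
      have h8 := h5.1.1.1
      rw [← h7] at h8
      rw [box_zero hd h8, ← h7, zero_smul, add_zero]
    · obtain ⟨u, h8, h9⟩ := hD _ _ 1 1 one_pos one_pos (fun i => by simp) h5.1 h7
        (h6.resolve_left h7.ne') _ (mn_rs hB h (t none))
      exact ⟨u, h8, fun _ => Or.inr h9⟩
  choose u h5 h6 using h4
  have h7 : ∀ p ∈ (fun t => (dc F (deg z (t none)), u t)) '' T, p.2 ∈ M.H p.1 := by
    rintro _ ⟨t, -, rfl⟩
    exact h5 t
  refine ⟨_, h1.image _, h7, fun x hx hw => ?_⟩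
  have h8 := h3 x hx (Or.inr hw)
  clear hx hw
  induction h8 using AddSubmonoid.closure_induction with
  | mem t ht =>
    rcases h6 t ht with h8 | h8
    · have h9 := (mn_rs hB h (t none)).1
      rw [h8] at h9 ⊢
      exact SpM.of (Sp.gen (Or.inr ⟨rfl, h9⟩))
    · exact ⟨u t, Sp.gen (Or.inl ⟨t, ht, rfl⟩), h8⟩
  | zero => exact (SpM.of Sp.one).cast (by simp) (mn_zero g).symm
  | add x y _ _ hx hy =>
    exact (hx.mul (triv hB) (gens_F hB h7) hy).cast (by simp) (mn_add g _ _).symm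

/-- The degree attached to a divisor with a section that does not vanish on `o`. -/
theorem exists_deg (hM : M.OK f) (hC : Cv M) {n : ℤ} {b : M.J → ℤ} (h1 : Box M o μ d n b)
    (h2 : CanZ M o (μ * n) b) {s : KK N} (h3 : s ∈ M.H (n • F + b))
    (h4 : s ∉ (M.v o).F (1 - (n • F + b) o)) :
    ∃ (S : Set (Cu M o)) (y : Dg M o), dc F y = n • F + b ∧ KS μ d S y ∧ Wit F S y ∧
      (∀ u ∈ M.H (dc F y), u ∈ RS F y) ∧
      ∀ Γ, Γ ∉ S → ∃ u ∈ M.H (dc F y), M.Gen Γ.1.2 (cz F Γ y) u := by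
  classical
  have h5 : ∀ Γ : Cu M o, ∃ e : ℕ, ∃ u ∈ M.H (n • F + b),
      M.Gen Γ.1.2 (n • F + b - (e : ℤ) • M.e Γ.1.1) u := fun Γ =>
    (ord hB hM hC Γ (hB.H_R o _ h3) h4).imp fun _ h => ⟨s, h3, h⟩
  let y : Dg M o := fun k => k.elim n (Sum.elim b fun Γ => min (b Γ.1.1) (Nat.find (h5 Γ)))
  have e1 : dc F y = n • F + b := rfl
  have e2 : ∀ Γ, y.θ Γ = min (b Γ.1.1) (Nat.find (h5 Γ)) := fun _ => rfl
  have e3 : ∀ Γ, Γ ∉ {Γ : Cu M o | b Γ.1.1 ≤ Nat.find (h5 Γ)} → y.θ Γ = Nat.find (h5 Γ) :=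
    fun Γ h => min_eq_right (le_of_not_ge h)
  refine ⟨{Γ | b Γ.1.1 ≤ Nat.find (h5 Γ)}, y, e1, ⟨⟨h1, fun Γ => ⟨?_, ?_⟩⟩, h2, fun Γ h => ?_⟩,
    ⟨1, one_pos, ⟨s, ?_⟩, fun Γ h => ?_⟩, fun u hu => ⟨hB.H_R o _ hu, fun Γ => ?_⟩, fun Γ h => ?_⟩
  · exact le_min (h1.2.2 _).1 (Int.natCast_nonneg _)
  · exact min_le_left _ _
  · exact min_eq_left h
  · rw [one_nsmul]
    exact ⟨h3, gen_O hB (hB.H_R o _ h3) h4⟩
  · obtain ⟨u, h6, h7⟩ := Nat.find_spec (h5 Γ)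
    rw [one_nsmul]
    exact ⟨_, u, h6, h7, by rw [e3 Γ h]; simp⟩
  · exact oc_of_min hB hM hC Γ
      (fun e he => (min_le_right _ _).trans (Int.ofNat_le.2 (Nat.find_min' (h5 Γ) he))) hu
  · rw [cz, e3 Γ h]
    exact Nat.find_spec (h5 Γ)

end RRES

open RRES in
theorem rowRES : OfRES := by
  intro hE hG hP h4 hD f M hM o μ d w hμ hd hw
  classical
  have hB := hE.bas 3 f M hM
  have hC := hE.cv 3 f M hM
  have := finite_cu (o := o) hC
  obtain ⟨G, g1, g2, g3⟩ := h4 f M hM o μ d w hμ hd hw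
  obtain ⟨Q, hQ, hD⟩ := hD f M hM o μ d w hμ hd hw
  generalize FF M o μ w = F at *
  let I : Set (Dg M o × KK 3) := {p ∈ G | p.2 ∉ (M.v o).F (1 - dc F p.1 o)}
  have : Fintype I := (g1.subset fun _ h => h.1).fintype
  let z : I → Dg M o := fun i => i.1.1
  let g : I → KK 3 := fun i => i.1.2
  have h : ∀ i, g i ∈ RS F (z i) := fun i => g2 _ i.2.1
  have hO : ∀ i, M.Gen (M.v o).O (dc F (z i)) (g i) := fun i => gen_O hB (h i).1 i.2.2
  have g4 : ∀ y, KP μ d y → ∀ s ∈ RS F y, ∃ u, Sp (Set.range fun i => (z i, g i)) y u ∧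
      s - u ∈ (M.v o).F (1 - dc F y o) := fun y hy s hs =>
    (g3 y hy s hs).map (δ' := (ev M o).comp (dc F)) (triv hB) (AddMonoidHom.id _) (fun _ => rfl)
      (by
        rintro _ ⟨i, rfl⟩
        exact hB.R_F o _ _ (h i).1)
      fun p hp => by
        by_cases h0 : p.2 ∈ (M.v o).F (1 - dc F p.1 o)
        · exact SpM.small h0
        · exact SpM.of (Sp.gen ⟨⟨p, hp, h0⟩, rfl⟩)
  choose G' k1 k2 k3 using fun S : Set (Cu M o) => perS hB hG hP hd hQ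
    (fun y y' p q hp hq hi hy h0 => hD S y y' p q hp hq hi hy.1 hy.2.1 h0 hy.2.2) h hO
  have k4 : ∀ p ∈ ⋃ S, G' S, p.2 ∈ M.H p.1 := fun p hp =>
    let ⟨S, hS⟩ := Set.mem_iUnion.1 hp
    k2 S p hS
  refine ⟨⋃ S, G' S, Set.finite_iUnion k1, k4, fun n b h1 h2 s hs => ?_⟩
  by_cases h3 : s ∈ (M.v o).F (1 - (n • F + b) o)
  · exact SpM.small h3
  obtain ⟨S, y, e, y1, y2, y3, y4⟩ := exists_deg hB hM hC h1 h2 hs h3
  rw [← e] at hs ⊢
  have h5 : ∀ α, deg z α = y →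
      SpM (M.v o) (ev M o) ((⋃ S, G' S) ∪ {0} ×ˢ M.R o 0) (dc F y) (mn g α) := fun α hα => by
    have h6 : ∀ Γ : Cu M o, ∃ β, deg z β = y ∧
        (Γ ∉ S → ∀ i, ¬M.Gen Γ.1.2 (cz F Γ (z i)) (g i) → β i = 0) := fun Γ => by
      by_cases hΓ : Γ ∈ S
      · exact ⟨α, hα, fun h => (h hΓ).elim⟩
      obtain ⟨u, h6, h7⟩ := y4 Γ hΓ
      obtain ⟨u', h8, h9⟩ := g4 y y1.1 u (y3 u h6)
      refine (exists_tight hB hM h Γ h8 (hB.gen_small _ o _ u u' Γ.2.2.2.1 h7 ?_)).imp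
        fun _ h => ⟨h.1, fun _ => h.2⟩
      rw [cz, sub_o, ← neg_sub u u']
      exact neg_mem h9
    choose β h6 h7 using h6
    subst hα
    exact (k3 S (fun k => k.elim α β) ⟨y1, fun Γ => ⟨h6 Γ, h7 Γ⟩⟩ y2).mono
      (Set.union_subset_union_left _ (Set.subset_iUnion G' S))
  obtain ⟨u, h6, h7⟩ := g4 y y1.1 s (y3 s hs)
  refine SpM.congr ?_ h7
  have h8 := h6.span z g
  clear h6 h7
  induction h8 using Submodule.span_induction with
  | mem x hx =>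
    obtain ⟨α, h8, rfl⟩ := hx
    exact h5 α h8
  | zero => exact SpM.of (Sp.zero _)
  | add x y _ _ hx hy => exact hx.add hy
  | smul a x _ hx =>
    exact ((SpM.of (Sp.const a)).mul (triv hB) (gens_F hB k4) hx).cast (zero_add _)
      (Algebra.smul_def a x).symm

end

end Pool.Agent.MP_ee8c61_ag.M3FG
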