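import Pool.Agent.MP_ee8c61_ag.M3FG.Asm0
import Pool.Agent.MP_ee8c61_ag.M3FG.RGOR
import Pool.Agent.MP_ee8c61_ag.M3FG.RPOLY
import Pool.Agent.MP_ee8c61_ag.M3FG.RFING
import Pool.Agent.MP_ee8c61_ag.M3FG.RFINGR
import Pool.Agent.MP_ee8c61_ag.M3FG.ROPN
import Pool.Agent.MP_ee8c61_ag.M3FG.RFINM
import Pool.Agent.MP_ee8c61_ag.M3FG.RDIO
import Pool.Agent.MP_ee8c61_ag.M3FG.RRES
import Pool.Agent.MP_ee8c61_ag.M3FG.RTR
import Pool.Agent.MP_ee8c61_ag.M3FG.RRESY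
import Pool.Agent.MP_ee8c61_ag.M3FG.RBOX
import Pool.Agent.MP_ee8c61_ag.M3C.RFIN
import Pool.Agent.MP_ee8c61_ag.M3C.RACF

/-! Finite generation on boxes from the extension theorem and the surface case. -/

namespace Pool.Agent.MP_ee8c61_ag.M3FG

theorem sbox (hE : M3E.EOut) (h4 : StmtS4) : M3CH.SBOX :=
  box_of rowGOR rowPOLY (rowFINGR (rowFING (M3C.rowFIN M3C.rowACF))) rowOPN rowFINM rowDIO rowRES
    rowTR rowRESY rowBOX hE h4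

end Pool.Agent.MP_ee8c61_ag.M3FG
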