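import Pool.Agent.MP_ee8c61_ag.M3FG.SpecA
import Pool.Agent.MP_ee8c61_ag.M3E.Asm

/-!
Finite generation of adjoint rings of a model: the statements.
-/

namespace Pool.Agent.MP_ee8c61_ag.M3FG

open M3 M3E

noncomputable section

variable {N : ℕ} (M : Mod N) (o : M.J)

/-- The coefficient at `o`. -/
def ev : (M.J → ℤ) →+ ℤ := Pi.evalAddMonoidHom (fun _ => ℤ) o

/-- The curves cut out on the divisor `o` by the other divisors. -/
abbrev Cu : Type := {p : M.J × Vl N // M.IsCv o p.1 p.2}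

/-- Degrees: a level, a boundary divisor, and vanishing orders along the curves. -/
abbrev Dg : Type := Option (M.J ⊕ Cu M o) → ℤ

/-- The adjoint divisor of level one; the ample part is `w / μ`. -/
def FF (μ : ℕ) (w : M.J → ℤ) : M.J → ℤ := μ • (M.kk + M.e o) + w

variable {M o}

/-- The boundary divisor of a degree. -/
def Dg.b (z : Dg M o) : M.J → ℤ := fun j => z (some (Sum.inl j))

/-- The vanishing orders of a degree. -/
def Dg.θ (z : Dg M o) (Γ : Cu M o) : ℤ := z (some (Sum.inr Γ))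

/-- The divisor of a degree. -/
def dc (F : M.J → ℤ) : Dg M o →+ (M.J → ℤ) where
  toFun z := z none • F + z.b
  map_zero' := funext fun j => by simp [Dg.b]
  map_add' z z' := funext fun j => by simp [Dg.b]; ring

/-- Sections on the divisor `o` with prescribed vanishing along the curves. -/
def RS (F : M.J → ℤ) (z : Dg M o) : Set (KK N) :=
  {s | s ∈ M.R o (dc F z) ∧ ∀ Γ : Cu M o, M.Oc Γ.1.2 (dc F z - z.θ Γ • M.e Γ.1.1) s}

variable (M o) in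
/-- The boundary `b / (μ n)` has coefficients between `0` and `1 - 1 / d`. -/
def Box (μ d : ℕ) (n : ℤ) (b : M.J → ℤ) : Prop :=
  0 ≤ n ∧ b o = 0 ∧ ∀ j, 0 ≤ b j ∧ d * b j ≤ ((d : ℤ) - 1) * (μ * n)

/-- The cone of degrees. -/
def KP (μ d : ℕ) (z : Dg M o) : Prop :=
  Box M o μ d (z none) z.b ∧ ∀ Γ, 0 ≤ z.θ Γ ∧ z.θ Γ ≤ z.b Γ.1.1

variable (M o) in
/-- The divisors `o`, `i`, `j` have a common point. -/
def Meet (i j : M.J) : Prop :=
  ∃ V, Ov V ∧ V ≤ (M.v o).O ∧ i ≠ j ∧ i ≠ o ∧ j ≠ o ∧ M.Thru V i ∧ M.Thru V j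

variable (M o) in
/-- The boundary `b / m` is canonical on `o`. -/
def CanZ (m : ℤ) (b : M.J → ℤ) : Prop := ∀ i j, Meet M o i j → b i + b j ≤ m

/-- Global sections of a multiple of the divisor of `z` bound the vanishing orders along the
curves outside `S`. -/
def Wit (F : M.J → ℤ) (S : Set (Cu M o)) (z : Dg M o) : Prop :=
  ∃ r : ℕ, 0 < r ∧ (∃ g ∈ M.H (r • dc F z), M.Gen (M.v o).O (r • dc F z) g) ∧
    ∀ Γ, Γ ∉ S → ∃ (e : ℕ) (g : KK N), g ∈ M.H (r • dc F z) ∧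
      M.Gen Γ.1.2 (r • dc F z - (e : ℤ) • M.e Γ.1.1) g ∧ (e : ℤ) ≤ r * z.θ Γ

variable (M) in
/-- `c` is an adjoint divisor of level `m` with ample part `A` and boundary `β / m`, up to a
multiple of the divisor of the polynomial. -/
def Adj (A : M.J → ℚ) (c : M.J → ℤ) (m r : ℚ) (β : M.J → ℚ) : Prop :=
  0 ≤ m ∧ (∀ j, m / 2 ≤ β j ∧ β j ≤ m) ∧ M.q c = m • (M.q M.kk + A) + β + r • M.q M.aa

/-- A property of all models in dimension three. -/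
def All3 (P : ∀ (_ : Po 3) (_ : Mod 3), Prop) : Prop := ∀ (f : Po 3) (M : Mod 3), M.OK f → P f M

/-! ### Input from the theory of surfaces -/

/-- Adjoint rings of the surface `o` are finitely generated. -/
def StmtS4 : Prop := All3 fun _ M => ∀ (o : M.J) (μ d : ℕ) (w : M.J → ℤ), 0 < μ → 0 < d →
  M.Amp w → ∃ G : Set (Dg M o × KK 3), G.Finite ∧ (∀ p ∈ G, p.2 ∈ RS (FF M o μ w) p.1) ∧
    ∀ z, KP μ d z → ∀ s ∈ RS (FF M o μ w) z,
      SpM (M.v o) ((ev M o).comp (dc (FF M o μ w))) G z s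

/-! ### Tasks -/

/-- The ample cone is open. -/
def StmtOPN : Prop := AllM fun _ M => ∀ A, M.AmpQ A → ∃ ε : ℚ, 0 < ε ∧
  ∀ u : M.J → ℚ, (∀ j, |u j| ≤ ε) → M.AmpQ (A + u)

/-- Finiteness for sections on a divisor of a model. -/
def StmtFINM : Prop := AllM fun {N} _ M => ∀ (o : M.J) (ι : Type) [Fintype ι]
  (δ : (ι → ℤ) →+ ℤ) (G U : Set ((ι → ℤ) × KK N)), G.Finite →
  (∀ p ∈ G, p.2 ∈ (M.v o).F (-δ p.1)) → (∀ l, (0, ip N (MvPolynomial.X l)) ∈ G) →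
  (∀ p ∈ U, p.2 ∈ (M.v o).F (-δ p.1) ∧
    ∃ n : ℕ, 0 < n ∧ SpM (M.v o) δ (G ∪ {0} ×ˢ M.R o 0) (n • p.1) (p.2 ^ n)) →
  ∃ G' ⊆ U, G'.Finite ∧ ∀ p ∈ U, SpM (M.v o) δ (G ∪ G') p.1 p.2

/-- Lifting near a ray with witnesses. -/
def StmtDIO : Prop := All3 fun _ M => ∀ (o : M.J) (μ d : ℕ) (w : M.J → ℤ), 0 < μ → 0 < d →
  M.Amp w → ∃ Q : ℕ, 2 ≤ Q ∧ ∀ (S : Set (Cu M o)) (z z' : Dg M o) (p q : ℕ), 0 < p → 0 < q →
    (∀ i, (Q : ℤ) * |(q : ℤ) * z i - (p : ℤ) * z' i| ≤ q) → KP μ d z →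
    CanZ M o (μ * z none) z.b → 0 < z none → (∀ Γ ∈ S, z.θ Γ = z.b Γ.1.1) →
    Wit (FF M o μ w) S z' → ∀ s ∈ RS (FF M o μ w) z, M.Lf o (dc (FF M o μ w) z) s

/-- The restricted ring on the cone of canonical boundaries. -/
def StmtRES : Prop := All3 fun _ M => ∀ (o : M.J) (μ d : ℕ) (w : M.J → ℤ), 0 < μ → 0 < d →
  M.Amp w → ∃ G : Set ((M.J → ℤ) × KK 3), G.Finite ∧ (∀ p ∈ G, p.2 ∈ M.H p.1) ∧
    ∀ n b, Box M o μ d n b → CanZ M o (μ * n) b → ∀ g ∈ M.H (n • FF M o μ w + b),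
      SpM (M.v o) (ev M o) (G ∪ {0} ×ˢ M.R o 0) (n • FF M o μ w + b) g

/-- Transfer of a face of the box to a model with canonical boundaries. -/
def StmtTR : Prop := All3 fun f M => ∀ (o : M.J) (A : M.J → ℚ), M.AmpQ A →
  ∃ (W : Mod 3) (D : Dom W M) (μ d : ℕ) (w : W.J → ℤ), W.OK f ∧ 0 < μ ∧ 0 < d ∧ W.Amp w ∧
    ∀ c m r β, Adj M A c m r β → β o = m → ∃ (s : ℕ) (ρ n : ℤ) (b : W.J → ℤ), 0 < s ∧
      Box W (D.e o) μ d n b ∧ CanZ W (D.e o) (μ * n) b ∧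
      D.pb (s • c - ρ • M.aa) ≤ n • FF W (D.e o) μ w + b ∧
      D.pf (n • FF W (D.e o) μ w + b) = s • c - ρ • M.aa

/-- The restricted ring on a face of the box. -/
def StmtRESY : Prop := All3 fun _ M => ∀ (o : M.J) (A : M.J → ℚ), M.AmpQ A →
  ∃ G : Set ((M.J → ℤ) × KK 3), G.Finite ∧ (∀ p ∈ G, p.2 ∈ M.H p.1) ∧
    ∀ c m r β, Adj M A c m r β → β o = m → ∀ g ∈ M.H c, SpM (M.v o) (ev M o) G c g

/-- Finite generation on the box, up to powers. -/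
def StmtBOX : Prop := All3 fun _ M => ∀ A : M.J → ℚ, M.AmpQ A →
  ∃ G : Set ((M.J → ℤ) × KK 3), G.Finite ∧ (∀ p ∈ G, p.2 ∈ M.H p.1) ∧
    ∀ c m r β, Adj M A c m r β → ∀ g ∈ M.H c, ∃ n : ℕ, 0 < n ∧ Sp G (n • c) (g ^ n)

def OfOPN : Prop := EOut → StmtOPN
def OfFINM : Prop := EOut → StmtFINGR → StmtFINM
def OfDIO : Prop := EOut → StmtOPN → StmtDIO
def OfRES : Prop := EOut → StmtGOR → StmtPOLY → StmtS4 → StmtDIO → StmtRES
def OfTR : Prop := EOut → StmtOPN → StmtTR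
def OfRESY : Prop := EOut → StmtFINM → StmtRES → StmtTR → StmtRESY
def OfBOX : Prop := EOut → StmtRESY → StmtBOX

end

end Pool.Agent.MP_ee8c61_ag.M3FG
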