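import Pool.Agent.MP_ee8c61_ag.M3FG.SpecB

/-!
Cones in finitely generated monoids; monomials; orders of sections along curves.
-/

namespace Pool.Agent.MP_ee8c61_ag.M3FG

open M3 M3E Finset

noncomputable section

namespace RRES

section cone

variable {A A' : Type} [AddCommMonoid A] [AddCommMonoid A'] {P P' : A → Prop}

/-- `P` is defined by finitely many homogeneous linear inequalities. -/
def Cone (P : A → Prop) : Prop :=
  ∃ Λ : Set (A →+ ℤ), Λ.Finite ∧ ∀ x, P x ↔ ∀ l ∈ Λ, 0 ≤ l x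

theorem Cone.le {a b : A → ℤ} (h0 : b 0 - a 0 = 0)
    (ha : ∀ x y, b (x + y) - a (x + y) = b x - a x + (b y - a y)) : Cone fun x => a x ≤ b x :=
  ⟨{⟨⟨fun x => b x - a x, h0⟩, ha⟩}, Set.finite_singleton _, fun x => by simp⟩

theorem Cone.iff (h : Cone P) (e : ∀ x, P' x ↔ P x) : Cone P' :=
  h.imp fun _ h => ⟨h.1, fun x => (e x).trans (h.2 x)⟩

theorem Cone.and (h : Cone P) (h' : Cone P') : Cone fun x => P x ∧ P' x := by
  obtain ⟨Λ, h1, h2⟩ := h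
  obtain ⟨Λ', h3, h4⟩ := h'
  exact ⟨Λ ∪ Λ', h1.union h3, fun x => by simp only [h2, h4, Set.mem_union, or_imp, forall_and]⟩

theorem Cone.all {κ : Type} [Finite κ] {R : κ → A → Prop} (h : ∀ k, Cone (R k)) :
    Cone fun x => ∀ k, R k x := by
  choose Λ h1 h2 using h
  refine ⟨⋃ k, Λ k, Set.finite_iUnion h1, fun x => ?_⟩
  simp only [h2, Set.mem_iUnion, forall_exists_index]
  exact forall_comm

theorem Cone.of (p : Prop) (h : Cone P) : Cone fun x => p → P x := by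
  by_cases hp : p
  · exact h.iff fun x => by simp [hp]
  · exact ⟨∅, Set.finite_empty, fun x => by simp [hp]⟩

theorem Cone.eq {a b : A → ℤ} (h0 : b 0 - a 0 = 0)
    (ha : ∀ x y, b (x + y) - a (x + y) = b x - a x + (b y - a y)) : Cone fun x => a x = b x :=
  ((Cone.le h0 ha).and (Cone.le (a := b) (b := a) (by omega) fun x y => by
    have := ha x y
    omega)).iff fun _ => le_antisymm_iff

theorem Cone.comp {R : A' → Prop} (φ : A →+ A') (h : Cone R) : Cone fun x => R (φ x) := by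
  obtain ⟨Λ, h1, h2⟩ := h
  exact ⟨(fun l => l.comp φ) '' Λ, h1.image _, fun x => by simp [h2]⟩

theorem poly_cone (hG : StmtGOR) (hP : StmtPOLY) [AddMonoid.FG A] (hc : Cone P) {κ : Type}
    [Finite κ] (l : κ → A →+ ℤ) (C : A → Prop) (Q : ℕ)
    (h : ∀ x, P x → C x → ∀ y, P y → ∀ p q : ℕ, 0 < p → 0 < q →
      (∀ i, (Q : ℤ) * |(q : ℤ) * l i y - (p : ℤ) * l i x| ≤ q) → C y) :
    ∃ T : Set A, T.Finite ∧ (∀ t ∈ T, P t ∧ C t) ∧
      ∀ x, P x → C x → x ∈ AddSubmonoid.closure T := by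
  obtain ⟨Λ, h1, h2⟩ := hc
  have := h1.to_subtype
  let B : AddSubmonoid A := sol fun k : Λ => k.1
  have hB : ∀ x, x ∈ B ↔ P x := fun x =>
    ⟨fun h => (h2 x).2 fun l hl => h ⟨l, hl⟩, fun h k => (h2 x).1 h k.1 k.2⟩
  have : AddMonoid.FG B := (AddMonoid.fg_iff_addSubmonoid_fg B).2 (hG A Λ fun k => k.1)
  obtain ⟨T, h3, h4⟩ := hP B κ (fun i => (l i).comp B.subtype) {x | C x.1} Q
    fun x hx y p q hp hq hi => h x.1 ((hB _).1 x.2) hx y.1 ((hB _).1 y.2) p q hp hq hi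
  refine ⟨B.subtype '' T, T.finite_toSet.image _, ?_, fun x hx hC => ?_⟩
  · rintro _ ⟨t, ht, rfl⟩
    exact ⟨(hB _).1 t.2, h3 ht⟩
  · rw [← AddMonoidHom.map_mclosure]
    exact ⟨⟨x, (hB x).2 hx⟩, h4 _ hC, rfl⟩

end cone

section mon

variable {ι L K : Type} [Fintype ι] [AddCommMonoid L] [CommMonoid K]

/-- The degree of a monomial. -/
def deg (z : ι → L) : (ι → ℕ) →+ L where
  toFun α := ∑ i, α i • z i
  map_zero' := by simp
  map_add' α β := by simp [add_smul, sum_add_distrib]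

/-- The monomial. -/
def mn (g : ι → K) (α : ι → ℕ) : K := ∏ i, g i ^ α i

theorem mn_zero (g : ι → K) : mn g 0 = 1 := by simp [mn]

theorem mn_add (g : ι → K) (α β : ι → ℕ) : mn g (α + β) = mn g α * mn g β := by
  simp [mn, pow_add, prod_mul_distrib]

theorem mn_ind {z : ι → L} {g : ι → K} {P : L → K → Prop} (h1 : P 0 1)
    (hm : ∀ d e u v, P d u → P e v → P (d + e) (u * v)) (α : ι → ℕ)
    (h : ∀ i, α i ≠ 0 → P (z i) (g i)) : P (deg z α) (mn g α) := by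
  classical
  have hp : ∀ d u (n : ℕ), (n ≠ 0 → P d u) → P (n • d) (u ^ n) := fun d u n hn => by
    induction n with
    | zero => simpa using h1
    | succ n ih =>
      rw [succ_nsmul, pow_succ]
      exact hm _ _ _ _ (ih fun _ => hn n.succ_ne_zero) (hn n.succ_ne_zero)
  have : ∀ s : Finset ι, P (∑ i ∈ s, α i • z i) (∏ i ∈ s, g i ^ α i) := fun s => by
    induction s using Finset.induction_on with
    | empty => simpa using h1
    | insert a s ha ih =>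
      rw [sum_insert ha, prod_insert ha]
      exact hm _ _ _ _ (hp _ _ _ (h a)) ih
  exact this univ

theorem mn_split (z : ι → L) (g : ι → K) {α : ι → ℕ} {i : ι} (h : α i ≠ 0) :
    ∃ β, deg z α = z i + deg z β ∧ mn g α = g i * mn g β := by
  classical
  have e : α = Pi.single i 1 + (α - Pi.single i 1) := funext fun j => by
    by_cases hj : j = i
    · subst hj
      simp only [Pi.add_apply, Pi.sub_apply, Pi.single_eq_same]
      omega
    · simp [hj]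
  refine ⟨α - Pi.single i 1, ?_, ?_⟩
  · conv_lhs => rw [e, map_add]
    congr 1
    change ∑ j, _ = _
    rw [Finset.sum_eq_single i (fun j _ hj => by simp [hj]) (by simp)]
    simp
  · conv_lhs => rw [e, mn_add]
    congr 1
    rw [mn, Finset.prod_eq_single i (fun j _ hj => by simp [hj]) (by simp)]
    simp

end mon

variable {N : ℕ} {f : Po N} {M : Mod N} {o : M.J}

/-- The divisor of a degree, lowered along a curve. -/
def cz (F : M.J → ℤ) (Γ : Cu M o) (z : Dg M o) : M.J → ℤ := dc F z - z.θ Γ • M.e Γ.1.1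

theorem cz_add (F : M.J → ℤ) (Γ : Cu M o) (z z' : Dg M o) :
    cz F Γ (z + z') = cz F Γ z + cz F Γ z' := by
  rw [cz, cz, cz, map_add, show (z + z').θ Γ = z.θ Γ + z'.θ Γ from rfl, add_smul]
  abel

theorem cz_zero (F : M.J → ℤ) (Γ : Cu M o) : cz F Γ 0 = 0 := by
  rw [cz, map_zero, show (0 : Dg M o).θ Γ = 0 from rfl, zero_smul, sub_zero]

theorem sub_o (Γ : Cu M o) (c : M.J → ℤ) (e : ℤ) : (c - e • M.e Γ.1.1) o = c o := by
  simp [Mod.e_apply, Γ.2.1.symm]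

theorem const_mem {V : Vl N} (h : Ov V) (z : ℂ) : algebraMap ℂ (KK N) z ∈ V :=
  (ip N).commutes z ▸ h _

theorem finite_cu (hC : Cv M) : Finite (Cu M o) :=
  ((Set.finite_univ.prod (hC.fin o)).subset
    (s := Set.univ ×ˢ {V | ∃ j, M.IsCv o j V}) (t := {p : M.J × Vl N | M.IsCv o p.1 p.2})
    fun p hp => ⟨trivial, p.1, hp⟩).to_subtype

variable (hB : Bas f M) {F c c' : M.J → ℤ} {s : KK N} {V : Vl N}

include hB

theorem triv : Triv (M.v o) := const_mem (hB.ov_v o)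

theorem gen_one (V : Vl N) : M.Gen V 0 1 := fun b _ => by
  rw [hB.mon_zero, one_mul]
  exact un_one

theorem rs_one : (1 : KK N) ∈ RS F (0 : Dg M o) :=
  ⟨fun V _ _ => map_zero (dc (o := o) F) ▸ hB.gen_oc _ _ _ (gen_one hB V),
    fun Γ => show M.Oc _ (cz F Γ 0) 1 from
      (cz_zero F Γ).symm ▸ hB.gen_oc _ _ _ (gen_one hB Γ.1.2)⟩

theorem rs_mul (z z' : Dg M o) (u v : KK N) (h : u ∈ RS F z) (h' : v ∈ RS F z') :
    u * v ∈ RS F (z + z') :=
  ⟨fun V h1 h2 => (map_add (dc F) z z').symm ▸ hB.oc_mul _ _ _ _ _ (h.1 V h1 h2) (h'.1 V h1 h2),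
    fun Γ => show M.Oc _ (cz F Γ (z + z')) _ from
      (cz_add F Γ z z').symm ▸ hB.oc_mul _ _ _ _ _ (h.2 Γ) (h'.2 Γ)⟩

theorem gen_O (h : s ∈ M.R o c) (h' : s ∉ (M.v o).F (1 - c o)) : M.Gen (M.v o).O c s := by
  have h0 : s ≠ 0 := fun e => h' (Or.inl e)
  have h1 := (hB.R_F o c s h).resolve_left h0
  have h2 : ¬(1 - c o ≤ (M.v o).v s) := fun e => h' (Or.inr e)
  exact (hB.gen_v o c s).2 ⟨h0, by omega⟩

theorem lf_gen (h : M.Lf o c s) (hV : V ≤ (M.v o).O) (hg : M.Gen V c' s) (e : c' o = c o) :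
    ∃ g ∈ M.H c, M.Gen V c' g := by
  obtain ⟨g, h1, h2⟩ := h
  refine ⟨g, h1, hB.gen_small V o c' s g hV hg ?_⟩
  rw [e, ← neg_sub s g]
  exact neg_mem h2

theorem ord (hM : M.OK f) (hC : Cv M) (Γ : Cu M o) (h : s ∈ M.R o c)
    (h' : s ∉ (M.v o).F (1 - c o)) : ∃ e : ℕ, M.Gen Γ.1.2 (c - (e : ℤ) • M.e Γ.1.1) s := by
  obtain ⟨b, hb⟩ := hM.cov _ Γ.2.2.1
  have hb' : M.In b (M.v o).O := fun g hg => Γ.2.2.2.1 (hb g hg)
  obtain ⟨h0, h1⟩ := (M.v o).un_O.1 (gen_O hB h h' b hb')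
  obtain ⟨e, h2, h3⟩ := hC.un o _ _ b Γ.2 hb _ h0 h1
  obtain ⟨e, rfl⟩ := Int.eq_ofNat_of_zero_le (h3.1 (h _ Γ.2.2.1 Γ.2.2.2.1 b hb))
  refine ⟨e, (hB.gen_iff b _ _ _ hb).2 ?_⟩
  rwa [sub_eq_add_neg, hB.mon_add, hB.mon_neg, hB.mon_e, ← mul_assoc, ← div_eq_mul_inv]

/-- Global sections vanish along a curve at least to the minimal order. -/
theorem oc_of_min (hM : M.OK f) (hC : Cv M) (Γ : Cu M o) {θ : ℤ}
    (hθ : ∀ e : ℕ, (∃ g ∈ M.H c, M.Gen Γ.1.2 (c - (e : ℤ) • M.e Γ.1.1) g) → θ ≤ e)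
    (h : s ∈ M.H c) : M.Oc Γ.1.2 (c - θ • M.e Γ.1.1) s := by
  by_cases h' : s ∈ (M.v o).F (1 - c o)
  · exact hB.F_R o _ s ((sub_o Γ c θ).symm ▸ h') _ Γ.2.2.1 Γ.2.2.2.1
  obtain ⟨e, he⟩ := ord hB hM hC Γ (hB.H_R o c h) h'
  refine hB.oc_mono _ _ _ _ (fun j _ => ?_) (hB.gen_oc _ _ _ he)
  have := hθ e ⟨s, h, he⟩
  simp only [Pi.sub_apply, Pi.smul_apply, Mod.e_apply, smul_eq_mul]
  split_ifs <;> omega

variable {ι : Type} [Fintype ι] {z : ι → Dg M o} {g : ι → KK N}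

theorem mn_rs (h : ∀ i, g i ∈ RS F (z i)) (α : ι → ℕ) : mn g α ∈ RS F (deg z α) :=
  mn_ind (P := fun d u => u ∈ RS F d) (rs_one hB) (rs_mul hB) α fun i _ => h i

theorem mn_gen (φ : Dg M o → M.J → ℤ) (h0 : φ 0 = 0) (ha : ∀ d e, φ (d + e) = φ d + φ e)
    (α : ι → ℕ) (h : ∀ i, α i ≠ 0 → M.Gen V (φ (z i)) (g i)) : M.Gen V (φ (deg z α)) (mn g α) :=
  mn_ind (P := fun d u => M.Gen V (φ d) u) (h0.symm ▸ gen_one hB V)
    (fun d e _ _ h1 h2 => (ha d e).symm ▸ hB.gen_mul _ _ _ _ _ h1 h2) α h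

/-- A polynomial that generates along a curve contains a monomial in tight generators. -/
theorem exists_tight (hM : M.OK f) (h : ∀ i, g i ∈ RS F (z i)) (Γ : Cu M o) {d : Dg M o}
    {u : KK N} (hu : Sp (Set.range fun i => (z i, g i)) d u) (hg : M.Gen Γ.1.2 (cz F Γ d) u) :
    ∃ α, deg z α = d ∧ ∀ i, ¬M.Gen Γ.1.2 (cz F Γ (z i)) (g i) → α i = 0 := by
  obtain ⟨b, hb⟩ := hM.cov _ Γ.2.2.1
  let P : Submodule ℂ (KK N) :=
    { carrier := {x | x * M.mon b (cz F Γ d) ∈ Γ.1.2 ∧ ¬Un Γ.1.2 (x * M.mon b (cz F Γ d))}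
      zero_mem' := by
        rw [Set.mem_ofPred_eq, zero_mul]
        exact ⟨zero_mem _, not_un_zero⟩
      add_mem' := fun hx hy => by
        rw [Set.mem_ofPred_eq, add_mul]
        exact ⟨add_mem hx.1 hy.1, not_un_add hx.1 hy.1 hx.2 hy.2⟩
      smul_mem' := fun a x hx => by
        rw [Set.mem_ofPred_eq, Algebra.smul_def, mul_assoc]
        exact ⟨mul_mem (const_mem Γ.2.2.1 a) hx.1, not_un_mul (const_mem Γ.2.2.1 a) hx.1 hx.2⟩ }
  obtain ⟨α, h1, h2⟩ := hu.exists_monom z g P fun h => h.2 (hg b hb)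
  replace h1 : deg z α = d := h1
  refine ⟨α, h1, fun i hi => by_contra fun h0 => hi ?_⟩
  have h3 : M.Gen Γ.1.2 (cz F Γ (deg z α)) (mn g α) := by
    rw [hB.gen_iff b _ _ _ hb, h1]
    exact by_contra fun h4 => h2 ⟨h1 ▸ (mn_rs hB h α).2 Γ b hb, h4⟩
  obtain ⟨β, e1, e2⟩ := mn_split z g h0
  rw [e1, e2, cz_add] at h3
  exact hB.gen_of_mul _ _ _ _ _ ((h i).2 Γ) ((mn_rs hB h β).2 Γ) h3

end RRES

end

end Pool.Agent.MP_ee8c61_ag.M3FG
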