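import Pool.Agent.MP_ee8c61_ag.M3FG.Sp

/-!
Finitely generated monoids and graded rings: statements without geometry.
-/

namespace Pool.Agent.MP_ee8c61_ag.M3FG

open M3

/-- The solutions of a system of homogeneous linear inequalities. -/
def sol {N κ : Type} [AddCommMonoid N] (l : κ → N →+ ℤ) : AddSubmonoid N where
  carrier := {x | ∀ i, 0 ≤ l i x}
  zero_mem' := fun i => (map_zero (l i)).ge
  add_mem' := fun {x y} hx hy i => by
    rw [map_add]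
    exact add_nonneg (hx i) (hy i)

/-- Gordan's lemma. -/
def StmtGOR : Prop := ∀ (N κ : Type) [AddCommMonoid N] [AddMonoid.FG N] [Finite κ]
  (l : κ → N →+ ℤ), (sol l).FG

/-- A set that contains every element close to a ray through one of its elements is generated by
finitely many of its elements. -/
def StmtPOLY : Prop := ∀ (N κ : Type) [AddCommMonoid N] [AddMonoid.FG N] [Finite κ]
  (l : κ → N →+ ℤ) (C : Set N) (Q : ℕ),
  (∀ x ∈ C, ∀ (y : N) (p q : ℕ), 0 < p → 0 < q →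
    (∀ i, (Q : ℤ) * |(q : ℤ) * l i y - (p : ℤ) * l i x| ≤ q) → y ∈ C) →
  ∃ T : Finset N, (T : Set N) ⊆ C ∧ ∀ x ∈ C, x ∈ AddSubmonoid.closure (T : Set N)

/-- Homogeneous elements with a power in the algebra generated by `G` and by integral elements
of degree zero are generated by `G` and finitely many of them. -/
def StmtFING : Prop := ∀ (F ι : Type) [Field F] [Algebra ℂ F] [Algebra.EssFiniteType ℂ F]
  [Fintype ι] (G U : Set ((ι → ℤ) × F)) (G0 : Set F), G.Finite →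
  (∀ u ∈ G0, ∀ V : ValuationSubring F, (∀ z : ℂ, algebraMap ℂ F z ∈ V) →
    (∀ g, (0, g) ∈ G → g ∈ V) → u ∈ V) →
  (∀ p ∈ U, ∃ n : ℕ, 0 < n ∧ Sp (G ∪ {0} ×ˢ G0) (n • p.1) (p.2 ^ n)) →
  ∃ G' ⊆ U, G'.Finite ∧ ∀ p ∈ U, Sp (G ∪ G') p.1 p.2

/-- The same for leading terms along a valuation whose ring is a localization of a finitely
generated algebra. -/
def StmtFINGR : Prop := ∀ (K ι : Type) [Field K] [Algebra ℂ K] [Fintype ι] (v : DV K)
  (A : Subalgebra ℂ K) (π : K) (δ : (ι → ℤ) →+ ℤ) (G U : Set ((ι → ℤ) × K)) (G0 : Set K),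
  A.FG → (∀ g ∈ A, g ∈ v.F 0) → v.v π = 1 →
  (∀ g ∈ v.F 0, ∃ q ∈ A, q ∉ v.F 1 ∧ q * g ∈ A) → G.Finite → (∀ p ∈ G, p.2 ∈ v.F (-δ p.1)) →
  (∀ u ∈ G0, ∀ V : ValuationSubring K, V ≤ v.O → (∀ z : ℂ, algebraMap ℂ K z ∈ V) →
    (∀ g, (0, g) ∈ G → g ∈ V) → u ∈ V) →
  (∀ p ∈ U, p.2 ∈ v.F (-δ p.1) ∧ ∃ n : ℕ, 0 < n ∧ SpM v δ (G ∪ {0} ×ˢ G0) (n • p.1) (p.2 ^ n)) →
  ∃ G' ⊆ U, G'.Finite ∧ ∀ p ∈ U, SpM v δ (G ∪ G') p.1 p.2

end Pool.Agent.MP_ee8c61_ag.M3FG
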